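import Pool.Agent.K1H30.OP.Base

/-! The projection `Pj` and the form `b1`. -/

open Set Filter Topology MeasureTheory

set_option autoImplicit false

namespace Pool.Agent.K1H30.OP

open Pool.Agent.Y5 Pool.Agent.Y5.D Pool.Agent.Y5.E Pool.Agent.K1H54.LO
open Pool.Agent.Y248.ND (bil_anti vec_neg vec_sub vec_add abs_le_vec one_le_vec)
open Pool.Agent.Y301.G (wt wt_sum wt_le bil_term_sum)

theorem thin_neg {s N : ℝ} {k : Z3} (h : Thin s N k) : Thin s N (-k) := by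
  unfold Thin at *
  rw [vec_neg, norm_neg]
  refine ⟨h.1, ?_⟩
  simpa using h.2

theorem thin_neg_iff {s N : ℝ} {k : Z3} : Thin s N (-k) ↔ Thin s N k :=
  ⟨fun h => by simpa using thin_neg h, thin_neg⟩

theorem pe_neg (k : Z3) : pe (-k) = pe k := by
  unfold pe
  rw [vec_neg, norm_neg]
  simp only [Pi.neg_apply, Int.cast_neg, neg_div, neg_smul, smul_neg, neg_neg]

theorem inner_pe (p k : Z3) : (inner ℝ (pe p) (vec k) : ℝ) =
    (k 2 : ℝ) - ((p 2 : ℝ) / ‖vec p‖ ^ 2) * inner ℝ (vec p) (vec k) := by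
  unfold pe
  rw [inner_sub_left, real_inner_smul_left]
  congr 1
  rw [real_inner_comm]
  simp [vec, PiLp.inner_apply]

theorem inner_pe_self (p : Z3) (hp : 0 < ‖vec p‖) : (inner ℝ (pe p) (vec p) : ℝ) = 0 := by
  rw [inner_pe, real_inner_self_eq_norm_sq]
  field_simp
  ring

theorem norm_pe_sq (p : Z3) (hp : 0 < ‖vec p‖) :
    ‖pe p‖ ^ 2 = 1 - (p 2 : ℝ) ^ 2 / ‖vec p‖ ^ 2 := by
  rw [← real_inner_self_eq_norm_sq]
  have h1 : (inner ℝ (pe p) (pe p) : ℝ) = inner ℝ (pe p) (EuclideanSpace.single 2 1 : E3) := by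
    conv_lhs => rw [show pe p = EuclideanSpace.single 2 1 - ((p 2 : ℝ) / ‖vec p‖ ^ 2) • vec p
      from rfl]
    rw [show (EuclideanSpace.single 2 1 - ((p 2 : ℝ) / ‖vec p‖ ^ 2) • vec p : E3) = pe p from rfl]
    nth_rewrite 2 [show pe p = EuclideanSpace.single 2 1 - ((p 2 : ℝ) / ‖vec p‖ ^ 2) • vec p
      from rfl]
    rw [inner_sub_right, real_inner_smul_right, inner_pe_self p hp, mul_zero, sub_zero]
  rw [h1]
  unfold pe
  rw [inner_sub_left, real_inner_smul_left]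
  have h2 : (inner ℝ (vec p) (EuclideanSpace.single 2 1 : E3) : ℝ) = p 2 := by
    simp [vec, PiLp.inner_apply]
  have h3 : (inner ℝ (EuclideanSpace.single 2 1 : E3) (EuclideanSpace.single 2 1 : E3) : ℝ) = 1 := by
    rw [real_inner_self_eq_norm_sq]
    simp
  rw [h2, h3]
  ring

theorem norm_pe_le (p : Z3) (hp : 0 < ‖vec p‖) : ‖pe p‖ ≤ 1 := by
  have h := norm_pe_sq p hp
  have h2 : 0 ≤ (p 2 : ℝ) ^ 2 / ‖vec p‖ ^ 2 := by positivity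
  nlinarith [norm_nonneg (pe p)]

/-- conditions on `N` -/
structure NC (s₀ N : ℝ) : Prop where
  one : 1 ≤ N
  half : N ^ (s₀ - 1) ≤ 1 / 2

variable {s₀ s N : ℝ}

theorem thin_pos (hN : NC s₀ N) {k : Z3} (h : Thin s₀ N k) : 1 ≤ ‖vec k‖ := hN.one.trans h.1

theorem thin_ne (hN : NC s₀ N) {k : Z3} (h : Thin s₀ N k) : k ≠ 0 := by
  rintro rfl
  have := thin_pos hN h
  rw [vec_zero, norm_zero] at this
  norm_num at this

theorem norm_pe_ge (hN : NC s₀ N) (hs : s₀ < 1) {k : Z3} (h : Thin s₀ N k) : 1 / 2 ≤ ‖pe k‖ := by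
  have h1 := thin_pos hN h
  have h0 : 0 < ‖vec k‖ := by linarith
  have h2 := norm_pe_sq k h0
  have h3 : |(k 2 : ℝ)| / ‖vec k‖ ≤ 1 / 2 := by
    calc |(k 2 : ℝ)| / ‖vec k‖ ≤ ‖vec k‖ ^ s₀ / ‖vec k‖ := by
          gcongr
          exact h.2
      _ = ‖vec k‖ ^ (s₀ - 1) := by rw [Real.rpow_sub_one h0.ne']
      _ ≤ N ^ (s₀ - 1) := Real.rpow_le_rpow_of_nonpos (by linarith [hN.one]) h.1 (by linarith)
      _ ≤ 1 / 2 := hN.half
  have h4 : (k 2 : ℝ) ^ 2 / ‖vec k‖ ^ 2 ≤ 1 / 4 := by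
    rw [← div_pow, ← sq_abs, abs_div, abs_of_pos h0]
    have h5 : 0 ≤ |(k 2 : ℝ)| / ‖vec k‖ := by positivity
    nlinarith
  nlinarith [norm_nonneg (pe k)]

theorem Pj_thin {V : Fam} {k : Z3} (h : Thin s₀ N k) :
    Pj s₀ N V k = ((inner ℝ (V k) (pe k) : ℝ) / ‖pe k‖ ^ 2) • pe k := by
  unfold Pj
  rw [if_pos h]

theorem Pj_not {V : Fam} {k : Z3} (h : ¬ Thin s₀ N k) : Pj s₀ N V k = 0 := by
  unfold Pj
  rw [if_neg h]

theorem Pj_norm (V : Fam) (k : Z3) : ‖Pj s₀ N V k‖ ≤ ‖V k‖ := by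
  by_cases h : Thin s₀ N k
  · rw [Pj_thin h, norm_smul, norm_div, norm_pow, norm_norm]
    rcases eq_or_ne ‖pe k‖ 0 with h0 | h0
    · rw [h0]
      simp
    · have h1 : 0 < ‖pe k‖ := lt_of_le_of_ne (norm_nonneg _) (Ne.symm h0)
      have h2 : ‖(inner ℝ (V k) (pe k) : ℝ)‖ ≤ ‖V k‖ * ‖pe k‖ := norm_inner_le_norm _ _
      rw [div_mul_eq_mul_div, div_le_iff₀ (by positivity)]
      calc ‖(inner ℝ (V k) (pe k) : ℝ)‖ * ‖pe k‖ ≤ ‖V k‖ * ‖pe k‖ * ‖pe k‖ := by gcongr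
        _ = _ := by ring
  · rw [Pj_not h, norm_zero]
    exact norm_nonneg _

theorem Pj_rap {V : Fam} (h : Rap V) : Rap (Pj s₀ N V) := fun m => by
  obtain ⟨M, hM⟩ := h m
  exact ⟨M, fun k => (mul_le_mul_of_nonneg_left (Pj_norm V k) (by positivity)).trans (hM k)⟩

theorem Pj_odd {V : Fam} (h : ∀ k, V (-k) = -V k) (k : Z3) :
    Pj s₀ N V (-k) = -Pj s₀ N V k := by
  by_cases hk : Thin s₀ N k
  · rw [Pj_thin hk, Pj_thin (thin_neg hk), h, pe_neg, inner_neg_left, neg_div, neg_smul]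
  · rw [Pj_not hk, Pj_not (fun h => hk (thin_neg_iff.1 h)), neg_zero]

theorem Pj_tan (hN : NC s₀ N) (V : Fam) (k : Z3) : inner ℝ (vec k) (Pj s₀ N V k) = 0 := by
  by_cases hk : Thin s₀ N k
  · have h1 := thin_pos hN hk
    rw [Pj_thin hk, real_inner_smul_right, real_inner_comm (pe k) (vec k),
      inner_pe_self k (by linarith), mul_zero]
  · rw [Pj_not hk, inner_zero_right]

theorem Pj_ot (hN : NC s₀ N) {V : Fam} (h : ∀ k, V (-k) = -V k) : OT (Pj s₀ N V) :=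
  ⟨Pj_odd h, Pj_tan hN V⟩

theorem Pj_add (V V' : Fam) : Pj s₀ N (fun k => V k + V' k) =
    fun k => Pj s₀ N V k + Pj s₀ N V' k := by
  funext k
  by_cases hk : Thin s₀ N k
  · rw [Pj_thin hk, Pj_thin hk, Pj_thin hk, inner_add_left, add_div, add_smul]
  · rw [Pj_not hk, Pj_not hk, Pj_not hk, add_zero]

theorem Pj_smul (a : ℝ) (V : Fam) : Pj s₀ N (fun k => a • V k) =
    fun k => a • Pj s₀ N V k := by
  funext k
  by_cases hk : Thin s₀ N k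
  · rw [Pj_thin hk, Pj_thin hk, real_inner_smul_left, mul_div_assoc, mul_smul]
  · rw [Pj_not hk, Pj_not hk, smul_zero]

theorem Pj_adj (G Z : Fam) (k : Z3) :
    (inner ℝ (G k) (Pj s₀ N Z k) : ℝ) = inner ℝ (Pj s₀ N G k) (Z k) := by
  by_cases hk : Thin s₀ N k
  · rw [Pj_thin hk, Pj_thin hk, real_inner_smul_left, real_inner_smul_right,
      real_inner_comm (Z k) (pe k)]
    ring
  · rw [Pj_not hk, Pj_not hk, inner_zero_left, inner_zero_right]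

theorem Pj_zero {V : Fam} (h : ∀ k, Thin s₀ N k → V k = 0) : Pj s₀ N V = fun _ => 0 := by
  funext k
  by_cases hk : Thin s₀ N k
  · rw [Pj_thin hk, h k hk]
    simp
  · rw [Pj_not hk]

/-- the gain from the geometry -/
theorem rpow_gain {x y t : ℝ} (hx : 1 ≤ x) (hy : 0 ≤ y) (ht0 : 0 ≤ t) (ht1 : t ≤ 1) :
    y ^ t ≤ x ^ t + x ^ (t - 1) * y := by
  have hx0 : 0 < x := by linarith
  rcases le_total y x with h | h
  · have h1 : y ^ t ≤ x ^ t := Real.rpow_le_rpow hy h ht0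
    have h2 : 0 ≤ x ^ (t - 1) * y := by positivity
    linarith
  · have hy0 : 0 < y := by linarith
    have h1 : y ^ (t - 1) ≤ x ^ (t - 1) := Real.rpow_le_rpow_of_nonpos hx0 h (by linarith)
    have h2 : y ^ t = y ^ (t - 1) * y := by
      rw [Real.rpow_sub_one hy0.ne']
      field_simp
    have h3 : 0 ≤ x ^ t := by positivity
    rw [h2]
    nlinarith

theorem inner_pe_bd (hN : NC s₀ N) (h0 : 0 < s₀) (h1 : s₀ < 1) {p k : Z3} (hp : Thin s₀ N p)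
    (hk : Thin s₀ N k ∨ Thin s₀ N (k - p)) : |(inner ℝ (pe p) (vec k) : ℝ)| ≤
      3 * (‖vec p‖ ^ s₀ + ‖vec p‖ ^ (s₀ - 1) * ‖vec (k - p)‖) := by
  have hp1 := thin_pos hN hp
  have hp0 : 0 < ‖vec p‖ := by linarith
  have key : ∀ l : Z3, Thin s₀ N l → |(inner ℝ (pe p) (vec l) : ℝ)| ≤
      ‖vec p‖ ^ s₀ + 2 * (‖vec p‖ ^ (s₀ - 1) * ‖vec l‖) := by
    intro l hl
    rw [inner_pe]
    have e1 : |((p 2 : ℝ) / ‖vec p‖ ^ 2) * (inner ℝ (vec p) (vec l) : ℝ)| ≤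
        ‖vec p‖ ^ (s₀ - 1) * ‖vec l‖ := by
      rw [abs_mul, abs_div, abs_of_pos (pow_pos hp0 2)]
      have e2 : |(inner ℝ (vec p) (vec l) : ℝ)| ≤ ‖vec p‖ * ‖vec l‖ := abs_real_inner_le_norm _ _
      calc |(p 2 : ℝ)| / ‖vec p‖ ^ 2 * |(inner ℝ (vec p) (vec l) : ℝ)|
          ≤ ‖vec p‖ ^ s₀ / ‖vec p‖ ^ 2 * (‖vec p‖ * ‖vec l‖) := by
            gcongr
            exact hp.2
        _ = _ := by
            rw [Real.rpow_sub_one hp0.ne']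
            field_simp
    have e3 : |(l 2 : ℝ)| ≤ ‖vec p‖ ^ s₀ + ‖vec p‖ ^ (s₀ - 1) * ‖vec l‖ :=
      hl.2.trans (rpow_gain hp1 (norm_nonneg _) h0.le h1.le)
    calc _ ≤ |(l 2 : ℝ)| + |((p 2 : ℝ) / ‖vec p‖ ^ 2) * (inner ℝ (vec p) (vec l) : ℝ)| :=
          abs_sub _ _
      _ ≤ _ := by linarith
  have hq0 : 0 ≤ ‖vec p‖ ^ (s₀ - 1) * ‖vec (k - p)‖ := by positivity
  have hp2 : 0 ≤ ‖vec p‖ ^ s₀ := by positivity
  rcases hk with hk | hk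
  · have e1 := key k hk
    have e2 : ‖vec k‖ ≤ ‖vec p‖ + ‖vec (k - p)‖ := by
      have : vec k = vec p + vec (k - p) := by rw [← vec_add]; congr 1; abel
      rw [this]
      exact norm_add_le _ _
    have e3 : ‖vec p‖ ^ (s₀ - 1) * ‖vec k‖ ≤ ‖vec p‖ ^ s₀ + ‖vec p‖ ^ (s₀ - 1) * ‖vec (k - p)‖ := by
      calc ‖vec p‖ ^ (s₀ - 1) * ‖vec k‖ ≤ ‖vec p‖ ^ (s₀ - 1) * (‖vec p‖ + ‖vec (k - p)‖) := by
            gcongr
        _ = _ := by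
            rw [mul_add, Real.rpow_sub_one hp0.ne', div_mul_cancel₀ _ hp0.ne']
    linarith
  · have e1 := key (k - p) hk
    have e2 : (inner ℝ (pe p) (vec k) : ℝ) = inner ℝ (pe p) (vec (k - p)) := by
      rw [vec_sub, inner_sub_right, inner_pe_self p hp0, sub_zero]
    rw [e2]
    linarith

theorem inner_Pj_bd (hN : NC s₀ N) (h0 : 0 < s₀) (h1 : s₀ < 1) (V : Fam) {p k : Z3}
    (hk : Thin s₀ N k ∨ Thin s₀ N (k - p)) (hs : s₀ < s) :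
    |(inner ℝ (Pj s₀ N V p) (vec k) : ℝ)| ≤
      6 * N ^ (s₀ - s) * (‖vec p‖ ^ s * ‖V p‖ + ‖vec p‖ ^ (s - 1) * ‖V p‖ * ‖vec (k - p)‖) := by
  have hN0 : 0 < N := by linarith [hN.one]
  by_cases hp : Thin s₀ N p
  · have hp1 := thin_pos hN hp
    have hp0 : 0 < ‖vec p‖ := by linarith
    have e1 := inner_pe_bd hN h0 h1 hp hk
    have e2 := norm_pe_ge hN h1 hp
    have e3 : 0 < ‖pe p‖ := by linarith
    rw [Pj_thin hp, real_inner_smul_left, abs_mul, abs_div, abs_of_pos (pow_pos e3 2)]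
    have e4 : |(inner ℝ (V p) (pe p) : ℝ)| / ‖pe p‖ ^ 2 ≤ 2 * ‖V p‖ := by
      have e5 : |(inner ℝ (V p) (pe p) : ℝ)| ≤ ‖V p‖ * ‖pe p‖ := abs_real_inner_le_norm _ _
      rw [div_le_iff₀ (by positivity)]
      calc _ ≤ ‖V p‖ * ‖pe p‖ := e5
        _ ≤ ‖V p‖ * (2 * ‖pe p‖ ^ 2) := by
            gcongr
            nlinarith
        _ = _ := by ring
    have e6 : ‖vec p‖ ^ (s₀ - s) ≤ N ^ (s₀ - s) :=
      Real.rpow_le_rpow_of_nonpos hN0 hp.1 (by linarith)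
    have e7 : ‖vec p‖ ^ s₀ ≤ N ^ (s₀ - s) * ‖vec p‖ ^ s := by
      calc ‖vec p‖ ^ s₀ = ‖vec p‖ ^ (s₀ - s) * ‖vec p‖ ^ s := by
            rw [← Real.rpow_add hp0]; congr 1; ring
        _ ≤ _ := by gcongr
    have e8 : ‖vec p‖ ^ (s₀ - 1) ≤ N ^ (s₀ - s) * ‖vec p‖ ^ (s - 1) := by
      calc ‖vec p‖ ^ (s₀ - 1) = ‖vec p‖ ^ (s₀ - s) * ‖vec p‖ ^ (s - 1) := by
            rw [← Real.rpow_add hp0]; congr 1; ring
        _ ≤ _ := by gcongr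
    calc |(inner ℝ (V p) (pe p) : ℝ)| / ‖pe p‖ ^ 2 * |(inner ℝ (pe p) (vec k) : ℝ)|
        ≤ (2 * ‖V p‖) * (3 * (‖vec p‖ ^ s₀ + ‖vec p‖ ^ (s₀ - 1) * ‖vec (k - p)‖)) := by gcongr
      _ ≤ (2 * ‖V p‖) * (3 * (N ^ (s₀ - s) * ‖vec p‖ ^ s +
            N ^ (s₀ - s) * ‖vec p‖ ^ (s - 1) * ‖vec (k - p)‖)) := by gcongr
      _ = _ := by ring
  · rw [Pj_not hp, inner_zero_left, abs_zero]
    positivity

/-- the smallness of each part of `b1` -/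
theorem bil_small (hN : NC s₀ N) (h0 : 0 < s₀) (h1 : s₀ < 1) (hs : s₀ < s) (hs1 : s < 1)
    {V W Z W' Z' : Fam} (hV : Rap V) (hW : Rap W) (hZ : Rap Z) (hW' : Rap W') (hZ' : Rap Z')
    (h2 : ∀ k, ‖W' k‖ ≤ ‖W k‖) (h3 : ∀ k, ‖Z' k‖ ≤ ‖Z k‖)
    (h4 : (∀ k, ¬ Thin s₀ N k → W' k = 0) ∨ ∀ k, ¬ Thin s₀ N k → Z' k = 0) :
    |bil (Pj s₀ N V) W' Z'| ≤
      2 * Real.pi * (6 * N ^ (s₀ - s)) *
        ((A1 s V * l2 W + A1 (s - 1) V * Pool.Agent.K1H54.LO.h1 W) * l2 Z) := by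
  have hN0 : 0 < N := by linarith [hN.one]
  have key := bil_young (Pj_rap (s₀ := s₀) (N := N) hV) hW' hZ'
    (a := fun k => ‖vec k‖ ^ s * ‖V k‖) (b := fun k => ‖W k‖)
    (a' := fun k => ‖vec k‖ ^ (s - 1) * ‖V k‖) (b' := fun k => ‖vec k‖ * ‖W k‖)
    (c := fun k => ‖Z k‖) (fun _ => by positivity) (fun _ => by positivity)
    (fun _ => by positivity) (fun _ => by positivity) (fun _ => by positivity)
    (sumr hV hs1.le) (sq0 hW) (sumr hV (by linarith)) (sq1 hW) (sq0 hZ)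
    (C := 6 * N ^ (s₀ - s)) (by positivity) ?_
  · refine key.trans (le_of_eq ?_)
    unfold A1 l2 Pool.Agent.K1H54.LO.h1
    have : ∀ k, (‖vec k‖ * ‖W k‖) ^ 2 = ‖vec k‖ ^ 2 * ‖W k‖ ^ 2 := fun k => mul_pow _ _ _
    rw [tsum_congr this]
    ring
  · intro p k
    by_cases hk : Thin s₀ N k ∨ Thin s₀ N (k - p)
    · have e1 := inner_Pj_bd hN h0 h1 V hk hs
      have e2 := h2 (k - p)
      have e3 := h3 k
      calc |(inner ℝ (Pj s₀ N V p) (vec k) : ℝ)| * (‖W' (k - p)‖ * ‖Z' k‖)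
          ≤ (6 * N ^ (s₀ - s) * (‖vec p‖ ^ s * ‖V p‖ +
              ‖vec p‖ ^ (s - 1) * ‖V p‖ * ‖vec (k - p)‖)) * (‖W (k - p)‖ * ‖Z k‖) := by gcongr
        _ = _ := by ring
    · push Not at hk
      have : ‖W' (k - p)‖ * ‖Z' k‖ = 0 := by
        rcases h4 with h | h
        · rw [h _ hk.2]; simp
        · rw [h _ hk.1]; simp
      rw [this, mul_zero]
      positivity

/-- the crude bound of each part -/
theorem bil_low {V W Z V' W' Z' : Fam} (hV : Rap V) (hW : Rap W) (hZ : Rap Z)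
    (hV' : Rap V') (hW' : Rap W') (hZ' : Rap Z')
    (h1 : ∀ k, ‖V' k‖ ≤ ‖V k‖) (h2 : ∀ k, ‖W' k‖ ≤ ‖W k‖) (h3 : ∀ k, ‖Z' k‖ ≤ ‖Z k‖)
    (ht : ∀ k, inner ℝ (vec k) (V' k) = 0) :
    |bil V' W' Z'| ≤ 2 * Real.pi * (l2 V * A1 1 W * l2 Z) := by
  unfold bil
  rw [abs_mul, abs_neg, abs_of_pos Real.two_pi_pos]
  refine mul_le_mul_of_nonneg_left ?_ Real.two_pi_pos.le
  rw [← Real.norm_eq_abs]
  have s0 := bsum hV' hW' hZ'
  have hW1 : Summable (fun k => ‖vec k‖ * ‖W k‖) := sum1 hW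
  obtain ⟨s1, t1⟩ := young (a := fun k => ‖vec k‖ * ‖W k‖) (b := fun k => ‖V k‖)
    (c := fun k => ‖Z k‖) (fun _ => by positivity) (fun _ => by positivity)
    (fun _ => by positivity) hW1 (sq0 hV) (sq0 hZ)
  let σ : Z3 × Z3 ≃ Z3 × Z3 :=
    { toFun := fun q => (q.2 - q.1, q.2)
      invFun := fun q => (q.2 - q.1, q.2)
      left_inv := fun q => by ext <;> simp
      right_inv := fun q => by ext <;> simp }
  have s2 : Summable (fun q : Z3 × Z3 =>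
      (‖vec (q.2 - q.1)‖ * ‖W (q.2 - q.1)‖) * (‖V q.1‖ * ‖Z q.2‖)) := by
    refine ((σ.summable_iff (f := fun q : Z3 × Z3 =>
      (‖vec q.1‖ * ‖W q.1‖) * (‖V (q.2 - q.1)‖ * ‖Z q.2‖))).2 s1).congr fun q => ?_
    simp [σ]
  have t2 : ∑' q : Z3 × Z3, (‖vec (q.2 - q.1)‖ * ‖W (q.2 - q.1)‖) * (‖V q.1‖ * ‖Z q.2‖) =
      ∑' q : Z3 × Z3, (‖vec q.1‖ * ‖W q.1‖) * (‖V (q.2 - q.1)‖ * ‖Z q.2‖) := by
    rw [← σ.tsum_eq (fun q : Z3 × Z3 =>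
      (‖vec q.1‖ * ‖W q.1‖) * (‖V (q.2 - q.1)‖ * ‖Z q.2‖))]
    refine tsum_congr fun q => ?_
    simp [σ]
  refine (norm_tsum_le_tsum_norm s0.norm).trans ((s0.norm.tsum_le_tsum (fun q => ?_) s2).trans ?_)
  · rw [norm_mul]
    have e1 : (inner ℝ (V' q.1) (vec q.2) : ℝ) = inner ℝ (V' q.1) (vec (q.2 - q.1)) := by
      rw [vec_sub, inner_sub_right, real_inner_comm (vec q.1), ht, sub_zero]
    have e2 : ‖(inner ℝ (V' q.1) (vec (q.2 - q.1)) : ℝ)‖ ≤ ‖V' q.1‖ * ‖vec (q.2 - q.1)‖ :=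
      norm_inner_le_norm _ _
    have e3 : ‖(inner ℝ (W' (q.2 - q.1)) (Z' q.2) : ℝ)‖ ≤ ‖W' (q.2 - q.1)‖ * ‖Z' q.2‖ :=
      norm_inner_le_norm _ _
    have e4 := h1 q.1
    have e5 := h2 (q.2 - q.1)
    have e6 := h3 q.2
    rw [e1]
    calc _ ≤ (‖V' q.1‖ * ‖vec (q.2 - q.1)‖) * (‖W' (q.2 - q.1)‖ * ‖Z' q.2‖) := by gcongr
      _ ≤ (‖V q.1‖ * ‖vec (q.2 - q.1)‖) * (‖W (q.2 - q.1)‖ * ‖Z q.2‖) := by gcongr
      _ = _ := by ring
  · rw [t2]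
    refine t1.trans (le_of_eq ?_)
    unfold A1 l2
    have : ∀ k, ‖vec k‖ ^ (1 : ℝ) * ‖W k‖ = ‖vec k‖ * ‖W k‖ := fun k => by rw [Real.rpow_one]
    rw [tsum_congr this]
    ring

end Pool.Agent.K1H30.OP
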