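import Pool.Agent.K1H54.LO.Defs
import Pool.Agent.Y301.G.UNI

/-! Sums over the lattice: rapidly decreasing families, Young's inequality, the trilinear form. -/

open Set Filter Topology MeasureTheory

set_option autoImplicit false

namespace Pool.Agent.K1H30.OP

open Pool.Agent.Y5 Pool.Agent.Y5.D Pool.Agent.Y5.E Pool.Agent.K1H54.LO
open Pool.Agent.Y248.ND (bil_anti vec_neg vec_sub vec_add abs_le_vec one_le_vec)
open Pool.Agent.Y301.G (wt wt_sum wt_le bil_term_sum)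

theorem rap_bd {V : Fam} (h : Rap V) (m : ℕ) :
    ∃ M, 0 ≤ M ∧ ∀ k, (1 + ‖vec k‖) ^ m * ‖V k‖ ≤ M := by
  obtain ⟨M0, h0⟩ := h 0
  obtain ⟨M1, h1⟩ := h m
  have hM0 : 0 ≤ M0 := le_trans (by positivity) (h0 0)
  have hM1 : 0 ≤ M1 := le_trans (by positivity) (h1 0)
  refine ⟨2 ^ (m - 1) * (M0 + M1), by positivity, fun k => ?_⟩
  have h2 := add_pow_le (zero_le_one (α := ℝ)) (norm_nonneg (vec k)) m
  rw [one_pow] at h2
  have h3 := h0 k
  rw [pow_zero, one_mul] at h3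
  calc (1 + ‖vec k‖) ^ m * ‖V k‖ ≤ 2 ^ (m - 1) * (1 + ‖vec k‖ ^ m) * ‖V k‖ := by gcongr
    _ = 2 ^ (m - 1) * (‖V k‖ + ‖vec k‖ ^ m * ‖V k‖) := by ring
    _ ≤ _ := by gcongr; exact h1 k

theorem rap_sum {V : Fam} (h : Rap V) (m : ℕ) :
    Summable (fun k => (1 + ‖vec k‖) ^ m * ‖V k‖) := by
  obtain ⟨M, hM, h1⟩ := rap_bd h (6 + m)
  refine Summable.of_nonneg_of_le (fun _ => by positivity) (fun k => ?_) (wt_sum.mul_left M)
  refine wt_le k ?_ hM
  rw [← mul_assoc, ← pow_add]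
  exact h1 k

theorem rap_sq {V : Fam} (h : Rap V) (m : ℕ) :
    Summable (fun k => ((1 + ‖vec k‖) ^ m * ‖V k‖) ^ 2) := by
  obtain ⟨M, hM, h1⟩ := rap_bd h m
  refine Summable.of_nonneg_of_le (fun _ => by positivity) (fun k => ?_)
    ((rap_sum h m).mul_left M)
  rw [pow_two]
  exact mul_le_mul_of_nonneg_right (h1 k) (by positivity)

theorem one_le_jp (k : Z3) : 1 ≤ 1 + ‖vec k‖ := by linarith [norm_nonneg (vec k)]

theorem sum0 {V : Fam} (h : Rap V) : Summable (fun k => ‖V k‖) := by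
  simpa using rap_sum h 0

theorem sum1 {V : Fam} (h : Rap V) : Summable (fun k => ‖vec k‖ * ‖V k‖) := by
  refine Summable.of_nonneg_of_le (fun _ => by positivity) (fun k => ?_) (rap_sum h 1)
  rw [pow_one]
  gcongr
  linarith

theorem sq0 {V : Fam} (h : Rap V) : Summable (fun k => ‖V k‖ ^ 2) := by
  simpa using rap_sq h 0

theorem sq1 {V : Fam} (h : Rap V) : Summable (fun k => (‖vec k‖ * ‖V k‖) ^ 2) := by
  refine Summable.of_nonneg_of_le (fun _ => by positivity) (fun k => ?_) (rap_sq h 1)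
  rw [pow_one]
  gcongr
  linarith

theorem bd0 {V : Fam} (h : Rap V) : ∃ M, 0 ≤ M ∧ ∀ k, ‖V k‖ ≤ M := by
  obtain ⟨M, hM, h1⟩ := rap_bd h 0
  exact ⟨M, hM, fun k => by simpa using h1 k⟩

theorem vec_zero : vec 0 = 0 := by
  ext i; simp [vec]

theorem rpow_le_jp {t : ℝ} (ht1 : t ≤ 1) (k : Z3) :
    ‖vec k‖ ^ t ≤ (1 + ‖vec k‖) ^ 1 := by
  rw [pow_one]
  by_cases hk : k = 0
  · subst hk
    rw [vec_zero, norm_zero]
    rcases eq_or_ne t 0 with h | h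
    · rw [h, Real.rpow_zero, add_zero]
    · rw [Real.zero_rpow h]
      norm_num
  · have h1 := one_le_vec hk
    calc ‖vec k‖ ^ t ≤ ‖vec k‖ ^ (1 : ℝ) := Real.rpow_le_rpow_of_exponent_le h1 ht1
      _ ≤ 1 + ‖vec k‖ := by rw [Real.rpow_one]; linarith

theorem sumr {V : Fam} (h : Rap V) {t : ℝ} (ht1 : t ≤ 1) :
    Summable (fun k => ‖vec k‖ ^ t * ‖V k‖) := by
  refine Summable.of_nonneg_of_le (fun _ => by positivity) (fun k => ?_) (rap_sum h 1)
  exact mul_le_mul_of_nonneg_right (rpow_le_jp ht1 k) (norm_nonneg _)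

theorem l2_nonneg (V : Fam) : 0 ≤ l2 V := Real.sqrt_nonneg _

theorem h1_nonneg (V : Fam) : 0 ≤ h1 V := Real.sqrt_nonneg _

theorem A1_nonneg (s : ℝ) (V : Fam) : 0 ≤ A1 s V := tsum_nonneg fun _ => by positivity

/-! ### Cauchy-Schwarz and Young -/

theorem cs {X : Type} {f g : X → ℝ} (hf : Summable (fun k => f k ^ 2))
    (hg : Summable (fun k => g k ^ 2)) :
    Summable (fun k => |f k| * |g k|) ∧
      ∑' k, |f k| * |g k| ≤ √(∑' k, f k ^ 2) * √(∑' k, g k ^ 2) := by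
  have hs : Summable (fun k => |f k| * |g k|) := by
    refine Summable.of_nonneg_of_le (fun _ => by positivity) (fun k => ?_) (hf.add hg)
    nlinarith [sq_nonneg (|f k| - |g k|), sq_abs (f k), sq_abs (g k), abs_nonneg (f k),
      abs_nonneg (g k)]
  refine ⟨hs, hs.tsum_le_of_sum_le fun s => ?_⟩
  have h1 := Finset.sum_mul_sq_le_sq_mul_sq s (fun k => |f k|) (fun k => |g k|)
  simp only [sq_abs] at h1
  have h2 : ∑ k ∈ s, f k ^ 2 ≤ ∑' k, f k ^ 2 := hf.sum_le_tsum s (fun _ _ => sq_nonneg _)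
  have h3 : ∑ k ∈ s, g k ^ 2 ≤ ∑' k, g k ^ 2 := hg.sum_le_tsum s (fun _ _ => sq_nonneg _)
  rw [← Real.sqrt_mul (tsum_nonneg fun _ => sq_nonneg _)]
  apply Real.le_sqrt_of_sq_le
  refine h1.trans ?_
  exact mul_le_mul h2 h3 (Finset.sum_nonneg fun _ _ => sq_nonneg _)
    (tsum_nonneg fun _ => sq_nonneg _)

theorem young0 {b c : Z3 → ℝ} (hb : ∀ k, 0 ≤ b k) (hc : ∀ k, 0 ≤ c k)
    (sb : Summable (fun k => b k ^ 2)) (sc : Summable (fun k => c k ^ 2)) (p : Z3) :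
    Summable (fun k => b (k - p) * c k) ∧
      ∑' k, b (k - p) * c k ≤ √(∑' k, b k ^ 2) * √(∑' k, c k ^ 2) := by
  have e1 : Summable (fun k => b (k - p) ^ 2) :=
    (Equiv.subRight p).summable_iff (f := fun k => b k ^ 2) |>.2 sb
  have e2 : ∑' k, b (k - p) ^ 2 = ∑' k, b k ^ 2 :=
    (Equiv.subRight p).tsum_eq (fun k => b k ^ 2)
  have e3 := cs (f := fun k => b (k - p)) e1 sc
  rw [e2] at e3
  have e4 : ∀ k, |b (k - p)| * |c k| = b (k - p) * c k := fun k => by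
    rw [abs_of_nonneg (hb _), abs_of_nonneg (hc _)]
  rw [tsum_congr e4] at e3
  exact ⟨e3.1.congr e4, e3.2⟩

theorem young1 {F : Z3 × Z3 → ℝ} (hF : ∀ q, 0 ≤ F q) {a : Z3 → ℝ} {B : ℝ} (sa : Summable a)
    (h1 : ∀ p, Summable (fun k => F (p, k))) (h2 : ∀ p, ∑' k, F (p, k) ≤ a p * B) :
    Summable F ∧ ∑' q, F q ≤ (∑' k, a k) * B := by
  have h3 : Summable fun p => ∑' k, F (p, k) :=
    Summable.of_nonneg_of_le (fun p => tsum_nonneg fun k => hF (p, k)) h2 (sa.mul_right B)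
  have h4 : Summable F := (summable_prod_of_nonneg (fun q => hF q)).2 ⟨h1, h3⟩
  refine ⟨h4, ?_⟩
  rw [h4.tsum_prod' h1, ← tsum_mul_right]
  exact h3.tsum_le_tsum h2 (sa.mul_right _)

theorem young {a b c : Z3 → ℝ} (ha : ∀ k, 0 ≤ a k) (hb : ∀ k, 0 ≤ b k) (hc : ∀ k, 0 ≤ c k)
    (sa : Summable a) (sb : Summable (fun k => b k ^ 2)) (sc : Summable (fun k => c k ^ 2)) :
    Summable (fun q : Z3 × Z3 => a q.1 * (b (q.2 - q.1) * c q.2)) ∧
      ∑' q : Z3 × Z3, a q.1 * (b (q.2 - q.1) * c q.2) ≤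
        (∑' k, a k) * (√(∑' k, b k ^ 2) * √(∑' k, c k ^ 2)) := by
  refine young1 (fun q => mul_nonneg (ha _) (mul_nonneg (hb _) (hc _))) sa (fun p => ?_)
    (fun p => ?_)
  · exact (young0 hb hc sb sc p).1.mul_left (a p)
  · simp only
    rw [tsum_mul_left]
    exact mul_le_mul_of_nonneg_left (young0 hb hc sb sc p).2 (ha p)

theorem bsum {V W Z : Fam} (hV : Rap V) (hW : Rap W) (hZ : Rap Z) :
    Summable (fun q : Z3 × Z3 => inner ℝ (V q.1) (vec q.2) * inner ℝ (W (q.2 - q.1)) (Z q.2)) := by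
  obtain ⟨M, -, hM⟩ := bd0 hW
  exact bil_term_sum hM (sum0 hV) (sum1 hZ)

theorem bil_add1 {V V' W Z : Fam} (hV : Rap V) (hV' : Rap V') (hW : Rap W) (hZ : Rap Z) :
    bil (fun k => V k + V' k) W Z = bil V W Z + bil V' W Z := by
  unfold bil
  rw [← mul_add, ← (bsum hV hW hZ).tsum_add (bsum hV' hW hZ)]
  congr 1
  refine tsum_congr fun q => ?_
  rw [inner_add_left]
  ring

theorem bil_smul1 (a : ℝ) (V W Z : Fam) : bil (fun k => a • V k) W Z = a * bil V W Z := by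
  unfold bil
  have : ∀ q : Z3 × Z3, (inner ℝ (a • V q.1) (vec q.2) : ℝ) * inner ℝ (W (q.2 - q.1)) (Z q.2) =
      a * ((inner ℝ (V q.1) (vec q.2) : ℝ) * inner ℝ (W (q.2 - q.1)) (Z q.2)) := by
    intro q
    rw [real_inner_smul_left]
    ring
  rw [tsum_congr this, tsum_mul_left]
  ring

/-- the bound for the trilinear form -/
theorem bil_young {V W Z : Fam} (hV : Rap V) (hW : Rap W) (hZ : Rap Z) {a b a' b' c : Z3 → ℝ}
    (ha : ∀ k, 0 ≤ a k) (hb : ∀ k, 0 ≤ b k) (ha' : ∀ k, 0 ≤ a' k) (hb' : ∀ k, 0 ≤ b' k)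
    (hc : ∀ k, 0 ≤ c k)
    (sa : Summable a) (sb : Summable (fun k => b k ^ 2))
    (sa' : Summable a') (sb' : Summable (fun k => b' k ^ 2)) (sc : Summable (fun k => c k ^ 2))
    {C : ℝ} (hC : 0 ≤ C)
    (h : ∀ p k, |(inner ℝ (V p) (vec k) : ℝ)| * (‖W (k - p)‖ * ‖Z k‖) ≤
      C * (a p * (b (k - p) * c k) + a' p * (b' (k - p) * c k))) :
    |bil V W Z| ≤ 2 * Real.pi * (C * ((∑' k, a k) * (√(∑' k, b k ^ 2) * √(∑' k, c k ^ 2)) +
      (∑' k, a' k) * (√(∑' k, b' k ^ 2) * √(∑' k, c k ^ 2)))) := by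
  unfold bil
  rw [abs_mul, abs_neg, abs_of_pos Real.two_pi_pos]
  refine mul_le_mul_of_nonneg_left ?_ Real.two_pi_pos.le
  obtain ⟨s1, t1⟩ := young ha hb hc sa sb sc
  obtain ⟨s2, t2⟩ := young ha' hb' hc sa' sb' sc
  rw [← Real.norm_eq_abs]
  have s0 := bsum hV hW hZ
  refine (norm_tsum_le_tsum_norm s0.norm).trans ?_
  have s3 := (s1.add s2).mul_left C
  refine (s0.norm.tsum_le_tsum (fun q => ?_) s3).trans ?_
  · rw [norm_mul, Real.norm_eq_abs]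
    refine le_trans ?_ (h q.1 q.2)
    exact mul_le_mul_of_nonneg_left (norm_inner_le_norm _ _) (abs_nonneg _)
  · rw [tsum_mul_left, s1.tsum_add s2]
    gcongr

end Pool.Agent.K1H30.OP
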