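import Pool.Agent.K1H30.OP.Pk

/-! The cascade `bT`. -/

open Set Filter Topology MeasureTheory

set_option autoImplicit false

namespace Pool.Agent.K1H30.OP

open Pool.Agent.Y5 Pool.Agent.Y5.D Pool.Agent.Y5.E Pool.Agent.K1H54.LO
open Pool.Agent.Y248.ND (bil_anti vec_neg vec_sub vec_add abs_le_vec one_le_vec)
open Pool.Agent.Y301.G (wt wt_sum wt_le bil_term_sum)

/-! ### Sequences -/

/-- the terms of the cascade -/
noncomputable def trm (c : ℕ → ℝ) (ε : ℝ) (v v' w w' z z' : ℕ → ℝ) (n : ℕ) : ℝ :=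
  c n * (v' n * (w n * z' n - w' n * z n) + v' n * (w' n * z (n + 1) - w (n + 1) * z' n)
    + ε * (v n * (w n * z' n - w' n * z n)))

theorem trm_bd1 {c : ℕ → ℝ} {ε K : ℝ} {v v' w w' z z' : ℕ → ℝ} {n : ℕ} (h0 : 0 ≤ ε) (h1 : ε ≤ 1)
    (hc : 0 ≤ c n) (hv : c n * |v n| ≤ K) (hv' : c n * |v' n| ≤ K) :
    |trm c ε v v' w w' z z' n| ≤ K * (|w n| * |z' n| + |w' n| * |z n| + |w' n| * |z (n + 1)| +
      |w (n + 1)| * |z' n| + |w n| * |z' n| + |w' n| * |z n|) := by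
  have hK : 0 ≤ K := le_trans (by positivity) hv
  have e : trm c ε v v' w w' z z' n = (c n * v' n) * (w n * z' n) - (c n * v' n) * (w' n * z n)
      + (c n * v' n) * (w' n * z (n + 1)) - (c n * v' n) * (w (n + 1) * z' n)
      + (ε * (c n * v n)) * (w n * z' n) - (ε * (c n * v n)) * (w' n * z n) := by
    unfold trm
    ring
  have b1 : ∀ x y : ℝ, |(c n * v' n) * (x * y)| ≤ K * (|x| * |y|) := fun x y => by
    rw [abs_mul, abs_mul, abs_mul, abs_of_nonneg hc]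
    exact mul_le_mul_of_nonneg_right hv' (by positivity)
  have b2 : ∀ x y : ℝ, |(ε * (c n * v n)) * (x * y)| ≤ K * (|x| * |y|) := fun x y => by
    rw [abs_mul, abs_mul, abs_mul, abs_mul, abs_of_nonneg hc, abs_of_nonneg h0]
    refine mul_le_mul_of_nonneg_right ?_ (by positivity)
    calc ε * (c n * |v n|) ≤ 1 * K := by gcongr
      _ = K := one_mul _
  have a1 := abs_le.1 (b1 (w n) (z' n))
  have a2 := abs_le.1 (b1 (w' n) (z n))
  have a3 := abs_le.1 (b1 (w' n) (z (n + 1)))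
  have a4 := abs_le.1 (b1 (w (n + 1)) (z' n))
  have a5 := abs_le.1 (b2 (w n) (z' n))
  have a6 := abs_le.1 (b2 (w' n) (z n))
  rw [e, abs_le]
  constructor <;> linarith [a1.1, a1.2, a2.1, a2.2, a3.1, a3.2, a4.1, a4.2, a5.1, a5.2, a6.1, a6.2]

theorem trm_bd2 {c : ℕ → ℝ} {ε K : ℝ} {v v' w w' z z' : ℕ → ℝ} {n : ℕ} (h0 : 0 ≤ ε) (h1 : ε ≤ 1)
    (hc : 0 ≤ c n) (hw : c n * |w n| ≤ K) (hw' : c n * |w' n| ≤ K)
    (hw1 : c n * |w (n + 1)| ≤ K) :
    |trm c ε v v' w w' z z' n| ≤ K * (|v' n| * |z' n| + |v' n| * |z n| + |v' n| * |z (n + 1)| +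
      |v' n| * |z' n| + |v n| * |z' n| + |v n| * |z n|) := by
  have hK : 0 ≤ K := le_trans (by positivity) hw
  have e : trm c ε v v' w w' z z' n = (c n * w n) * (v' n * z' n) - (c n * w' n) * (v' n * z n)
      + (c n * w' n) * (v' n * z (n + 1)) - (c n * w (n + 1)) * (v' n * z' n)
      + (ε * (c n * w n)) * (v n * z' n) - (ε * (c n * w' n)) * (v n * z n) := by
    unfold trm
    ring
  have b0 : ∀ u x y : ℝ, c n * |u| ≤ K → |(c n * u) * (x * y)| ≤ K * (|x| * |y|) := fun u x y hu => by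
    rw [abs_mul, abs_mul, abs_mul, abs_of_nonneg hc]
    exact mul_le_mul_of_nonneg_right hu (by positivity)
  have b2 : ∀ u x y : ℝ, c n * |u| ≤ K → |(ε * (c n * u)) * (x * y)| ≤ K * (|x| * |y|) :=
    fun u x y hu => by
    rw [abs_mul, abs_mul, abs_mul, abs_mul, abs_of_nonneg hc, abs_of_nonneg h0]
    refine mul_le_mul_of_nonneg_right ?_ (by positivity)
    calc ε * (c n * |u|) ≤ 1 * K := by gcongr
      _ = K := one_mul _
  have a1 := abs_le.1 (b0 (w n) (v' n) (z' n) hw)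
  have a2 := abs_le.1 (b0 (w' n) (v' n) (z n) hw')
  have a3 := abs_le.1 (b0 (w' n) (v' n) (z (n + 1)) hw')
  have a4 := abs_le.1 (b0 (w (n + 1)) (v' n) (z' n) hw1)
  have a5 := abs_le.1 (b2 (w n) (v n) (z' n) hw)
  have a6 := abs_le.1 (b2 (w' n) (v n) (z n) hw')
  rw [e, abs_le]
  constructor <;> linarith [a1.1, a1.2, a2.1, a2.2, a3.1, a3.2, a4.1, a4.2, a5.1, a5.2, a6.1, a6.2]

theorem six {a1 b1 a2 b2 a3 b3 a4 b4 a5 b5 a6 b6 : ℕ → ℝ} {X Y K : ℝ} (hK : 0 ≤ K)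
    (t : ℕ → ℝ)
    (A1 : Summable (fun n => a1 n ^ 2) ∧ √(∑' n, a1 n ^ 2) ≤ X)
    (A2 : Summable (fun n => a2 n ^ 2) ∧ √(∑' n, a2 n ^ 2) ≤ X)
    (A3 : Summable (fun n => a3 n ^ 2) ∧ √(∑' n, a3 n ^ 2) ≤ X)
    (A4 : Summable (fun n => a4 n ^ 2) ∧ √(∑' n, a4 n ^ 2) ≤ X)
    (A5 : Summable (fun n => a5 n ^ 2) ∧ √(∑' n, a5 n ^ 2) ≤ X)
    (A6 : Summable (fun n => a6 n ^ 2) ∧ √(∑' n, a6 n ^ 2) ≤ X)
    (B1 : Summable (fun n => b1 n ^ 2) ∧ √(∑' n, b1 n ^ 2) ≤ Y)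
    (B2 : Summable (fun n => b2 n ^ 2) ∧ √(∑' n, b2 n ^ 2) ≤ Y)
    (B3 : Summable (fun n => b3 n ^ 2) ∧ √(∑' n, b3 n ^ 2) ≤ Y)
    (B4 : Summable (fun n => b4 n ^ 2) ∧ √(∑' n, b4 n ^ 2) ≤ Y)
    (B5 : Summable (fun n => b5 n ^ 2) ∧ √(∑' n, b5 n ^ 2) ≤ Y)
    (B6 : Summable (fun n => b6 n ^ 2) ∧ √(∑' n, b6 n ^ 2) ≤ Y)
    (ht : ∀ n, |t n| ≤ K * (|a1 n| * |b1 n| + |a2 n| * |b2 n| + |a3 n| * |b3 n| +
      |a4 n| * |b4 n| + |a5 n| * |b5 n| + |a6 n| * |b6 n|)) :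
    Summable t ∧ |∑' n, t n| ≤ 6 * K * (X * Y) := by
  have hX : 0 ≤ X := (Real.sqrt_nonneg _).trans A1.2
  have hY : 0 ≤ Y := (Real.sqrt_nonneg _).trans B1.2
  have key : ∀ {a b : ℕ → ℝ}, (Summable (fun n => a n ^ 2) ∧ √(∑' n, a n ^ 2) ≤ X) →
      (Summable (fun n => b n ^ 2) ∧ √(∑' n, b n ^ 2) ≤ Y) →
      Summable (fun n => |a n| * |b n|) ∧ ∑' n, |a n| * |b n| ≤ X * Y := by
    intro a b ha hb
    have h := cs ha.1 hb.1
    exact ⟨h.1, h.2.trans (mul_le_mul ha.2 hb.2 (Real.sqrt_nonneg _) hX)⟩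
  obtain ⟨s1, t1⟩ := key A1 B1
  obtain ⟨s2, t2⟩ := key A2 B2
  obtain ⟨s3, t3⟩ := key A3 B3
  obtain ⟨s4, t4⟩ := key A4 B4
  obtain ⟨s5, t5⟩ := key A5 B5
  obtain ⟨s6, t6⟩ := key A6 B6
  have s := (((((s1.add s2).add s3).add s4).add s5).add s6).mul_left K
  have st : Summable t := Summable.of_norm_bounded s fun n => ht n
  refine ⟨st, ?_⟩
  rw [← Real.norm_eq_abs]
  refine (norm_tsum_le_tsum_norm st.norm).trans ?_
  refine (st.norm.tsum_le_tsum (fun n => ht n) s).trans ?_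
  rw [tsum_mul_left, ((((s1.add s2).add s3).add s4).add s5).tsum_add s6,
    (((s1.add s2).add s3).add s4).tsum_add s5, ((s1.add s2).add s3).tsum_add s4,
    (s1.add s2).tsum_add s3, s1.tsum_add s2]
  calc K * _ ≤ K * (X * Y + X * Y + X * Y + X * Y + X * Y + X * Y) := by gcongr
    _ = _ := by ring

/-! ### The geometry -/

/-- what is used of `Geo` -/
structure GG (s₀ N₁ δ : ℝ) (c N : ℕ → ℝ) (m : ℕ → ℕ) (A : ℕ → Finset Z3) : Prop where
  pk : ∀ n, PKc s₀ N₁ (A n) (m n)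
  disj : ∀ n n', n ≠ n' → Disjoint (SS (A n)) (SS (A n'))
  size : ∀ n, ∀ k ∈ SS (A n), N n ≤ ‖vec k‖ ∧ ‖vec k‖ ≤ 2 * N n
  N1 : ∀ n, 1 ≤ N n
  coef : ∀ n, c n ≤ δ * N n ^ s₀ * √(m n : ℝ)
  c0 : ∀ n, 0 ≤ c n

variable {s₀ s N₁ δ : ℝ} {c N : ℕ → ℝ} {m : ℕ → ℕ} {A B : ℕ → Finset Z3}

theorem ss_disj {A A' : Finset Z3} (h : Disjoint A A') (hA : ∀ k ∈ A, 0 < k 0)
    (hA' : ∀ k ∈ A', 0 < k 0) : Disjoint (SS A) (SS A') := by
  rw [Finset.disjoint_left] at h ⊢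
  intro k h1 h2
  rcases mem_SS.1 h1 with h3 | h3 <;> rcases mem_SS.1 h2 with h4 | h4
  · exact h h3 h4
  · have e1 := hA k h3
    have e2 := hA' _ h4
    simp only [Pi.neg_apply] at e2
    omega
  · have e1 := hA _ h3
    have e2 := hA' _ h4
    simp only [Pi.neg_apply] at e1
    omega
  · exact h h3 h4

theorem gg_A {c₀ lam : ℝ} (h : Geo s₀ N₁ δ c₀ lam N m A B) :
    GG s₀ N₁ δ (fun n => c₀ * lam ^ n) N m A where
  pk n := ⟨fun k hk => h.thin n k (Finset.mem_union_left _ hk),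
    fun k hk => h.pos n k (Finset.mem_union_left _ hk), h.cardA n, h.mpos n⟩
  disj n n' hn := ss_disj ((h.disj n n' hn).mono Finset.subset_union_left
    Finset.subset_union_left) (fun k hk => h.pos n k (Finset.mem_union_left _ hk))
    fun k hk => h.pos n' k (Finset.mem_union_left _ hk)
  size n k hk := by
    rcases mem_SS.1 hk with h3 | h3
    · exact h.size n k (Finset.mem_union_left _ h3)
    · have := h.size n _ (Finset.mem_union_left _ h3)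
      rwa [vec_neg, norm_neg] at this
  N1 := h.N1
  coef := h.coef
  c0 n := by
    have := h.lam1
    have := h.c0
    positivity

theorem gg_B {c₀ lam : ℝ} (h : Geo s₀ N₁ δ c₀ lam N m A B) :
    GG s₀ N₁ δ (fun n => c₀ * lam ^ n) N m B where
  pk n := ⟨fun k hk => h.thin n k (Finset.mem_union_right _ hk),
    fun k hk => h.pos n k (Finset.mem_union_right _ hk), h.cardB n, h.mpos n⟩
  disj n n' hn := ss_disj ((h.disj n n' hn).mono Finset.subset_union_right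
    Finset.subset_union_right) (fun k hk => h.pos n k (Finset.mem_union_right _ hk))
    fun k hk => h.pos n' k (Finset.mem_union_right _ hk)
  size n k hk := by
    rcases mem_SS.1 hk with h3 | h3
    · exact h.size n k (Finset.mem_union_right _ h3)
    · have := h.size n _ (Finset.mem_union_right _ h3)
      rwa [vec_neg, norm_neg] at this
  N1 := h.N1
  coef := h.coef
  c0 n := by
    have := h.lam1
    have := h.c0
    positivity

theorem coefb (hg : GG s₀ N₁ δ c N m A) (hδ : 0 ≤ δ) (h0 : 0 < s₀) {t : ℝ} (ht : s₀ ≤ t)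
    (V : Fam) (n : ℕ) : c n * |pair V (pk (A n) (m n))| ≤
      δ * ∑ k ∈ SS (A n), ‖vec k‖ ^ t * ‖V k‖ := by
  have h1 := pair_pk_le (A := A n) (m := m n) V
  have h2 := hg.coef n
  have hm : (0 : ℝ) < m n := by exact_mod_cast (hg.pk n).mpos
  have h3 : √(m n : ℝ) * (√(2 * m n : ℝ))⁻¹ ≤ 1 := by
    rw [← div_eq_mul_inv, div_le_one (by positivity)]
    exact Real.sqrt_le_sqrt (by linarith)
  have hN := hg.N1 n
  have h4 : N n ^ s₀ * ∑ k ∈ SS (A n), ‖V k‖ ≤ ∑ k ∈ SS (A n), ‖vec k‖ ^ t * ‖V k‖ := by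
    rw [Finset.mul_sum]
    refine Finset.sum_le_sum fun k hk => ?_
    have h5 := (hg.size n k hk).1
    have h6 : 1 ≤ ‖vec k‖ := hN.trans h5
    have h7 : N n ^ s₀ ≤ ‖vec k‖ ^ t :=
      (Real.rpow_le_rpow (by linarith) h5 h0.le).trans (Real.rpow_le_rpow_of_exponent_le h6 ht)
    gcongr
  have h8 : 0 ≤ ∑ k ∈ SS (A n), ‖V k‖ := Finset.sum_nonneg fun _ _ => norm_nonneg _
  have h9 : 0 ≤ N n ^ s₀ := by positivity
  calc c n * |pair V (pk (A n) (m n))|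
      ≤ (δ * N n ^ s₀ * √(m n : ℝ)) * ((√(2 * m n : ℝ))⁻¹ * ∑ k ∈ SS (A n), ‖V k‖) :=
        mul_le_mul h2 h1 (abs_nonneg _) (by positivity)
    _ = (√(m n : ℝ) * (√(2 * m n : ℝ))⁻¹) * (δ * (N n ^ s₀ * ∑ k ∈ SS (A n), ‖V k‖)) := by ring
    _ ≤ 1 * (δ * (N n ^ s₀ * ∑ k ∈ SS (A n), ‖V k‖)) := by gcongr
    _ ≤ 1 * (δ * ∑ k ∈ SS (A n), ‖vec k‖ ^ t * ‖V k‖) := by gcongr
    _ = _ := one_mul _

theorem coefb' (hg : GG s₀ N₁ δ c N m A) (hδ : 0 ≤ δ) (h0 : 0 < s₀) {t : ℝ} (ht : s₀ ≤ t)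
    (ht1 : t ≤ 1) {V : Fam} (hV : Rap V) (n : ℕ) :
    c n * |pair V (pk (A n) (m n))| ≤ δ * A1 t V := by
  refine (coefb hg hδ h0 ht V n).trans ?_
  refine mul_le_mul_of_nonneg_left ?_ hδ
  exact (sumr hV ht1).sum_le_tsum _ fun _ _ => by positivity

/-- the sums of the polynomially weighted coefficients -/
theorem wsum (hg : GG s₀ N₁ δ c N m A) {V : Fam} (hV : Rap V) (j : ℕ) :
    Summable (fun n => N n ^ j * |pair V (pk (A n) (m n))|) := by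
  have h1 := (dsum hg.disj (f := fun k => (1 + ‖vec k‖) ^ j * ‖V k‖) (fun _ => by positivity)
    (rap_sum hV j)).1
  refine Summable.of_nonneg_of_le (fun n => ?_) (fun n => ?_) h1
  · have := hg.N1 n
    positivity
  · have hN := hg.N1 n
    calc N n ^ j * |pair V (pk (A n) (m n))| ≤ N n ^ j * ∑ k ∈ SS (A n), ‖V k‖ := by
          gcongr
          exact pair_pk_le1 (hg.pk n) V
      _ ≤ _ := by
          rw [Finset.mul_sum]
          refine Finset.sum_le_sum fun k hk => ?_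
          have h5 := (hg.size n k hk).1
          gcongr
          linarith

theorem c_poly (hg : GG s₀ N₁ δ c N m A) (hδ : 0 ≤ δ) (h1 : s₀ < 1) (n : ℕ) :
    c n ≤ 125 * δ * N n ^ 4 := by
  have hN := hg.N1 n
  have e1 : (m n : ℝ) ≤ 125 * N n ^ 3 := by
    rw [← (hg.pk n).card]
    exact card_ball hN fun k hk => (hg.size n k (mem_SS.2 (Or.inl hk))).2
  have e2 : √(m n : ℝ) ≤ m n := by
    have : (1 : ℝ) ≤ m n := by exact_mod_cast (hg.pk n).mpos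
    rw [Real.sqrt_le_left (by linarith)]
    nlinarith
  have e3 : N n ^ s₀ ≤ N n := by
    calc N n ^ s₀ ≤ N n ^ (1 : ℝ) := Real.rpow_le_rpow_of_exponent_le hN h1.le
      _ = N n := Real.rpow_one _
  calc c n ≤ δ * N n ^ s₀ * √(m n : ℝ) := hg.coef n
    _ ≤ δ * N n * (125 * N n ^ 3) := by
        have := e2.trans e1
        gcongr
    _ = _ := by ring

end Pool.Agent.K1H30.OP
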