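import Pool.Agent.K1H30.OP.Casc

/-! The cascade is given by an operator; assembly. -/

open Set Filter Topology MeasureTheory

set_option autoImplicit false

namespace Pool.Agent.K1H30.OP

open Pool.Agent.Y5 Pool.Agent.Y5.D Pool.Agent.Y5.E Pool.Agent.K1H54.LO
open Pool.Agent.Y248.ND (bil_anti vec_neg vec_sub vec_add abs_le_vec one_le_vec)
open Pool.Agent.Y301.G (wt wt_sum wt_le bil_term_sum)

variable {s₀ s N₁ δ c₀ lam ε : ℝ} {N : ℕ → ℝ} {m : ℕ → ℕ} {A B : ℕ → Finset Z3}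
  {V W Z : Fam}

theorem bT_eq (V W Z : Fam) : bT lam ε c₀ (fun n => pk (A n) (m n)) (fun n => pk (B n) (m n)) V W Z
    = ∑' n, trm (fun n => c₀ * lam ^ n) ε
      (fun n => pair V (pk (A n) (m n))) (fun n => pair V (pk (B n) (m n)))
      (fun n => pair W (pk (A n) (m n))) (fun n => pair W (pk (B n) (m n)))
      (fun n => pair Z (pk (A n) (m n))) (fun n => pair Z (pk (B n) (m n))) n := rfl

theorem bes' (h : Geo s₀ N₁ δ c₀ lam N m A B) (hW : Rap W) :
    (Summable (fun n => pair W (pk (A n) (m n)) ^ 2) ∧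
      √(∑' n, pair W (pk (A n) (m n)) ^ 2) ≤ l2 W) ∧
    (Summable (fun n => pair W (pk (B n) (m n)) ^ 2) ∧
      √(∑' n, pair W (pk (B n) (m n)) ^ 2) ≤ l2 W) ∧
    (Summable (fun n => pair W (pk (A (n + 1)) (m (n + 1))) ^ 2) ∧
      √(∑' n, pair W (pk (A (n + 1)) (m (n + 1))) ^ 2) ≤ l2 W) := by
  have gA := gg_A h
  have gB := gg_B h
  refine ⟨bessel gA.pk gA.disj hW, bessel gB.pk gB.disj hW, ?_⟩
  exact bessel (A := fun n => A (n + 1)) (m := fun n => m (n + 1)) (fun n => gA.pk (n + 1))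
    (fun n n' hn => gA.disj _ _ (by omega)) hW

theorem bT_small (h : Geo s₀ N₁ δ c₀ lam N m A B) (hδ : 0 ≤ δ) (hε : 0 ≤ ε) (hε1 : ε ≤ 1)
    (h0 : 0 < s₀) (hs : s₀ < s) (hs1 : s < 1) (hV : Rap V) (hW : Rap W) (hZ : Rap Z) :
    Summable (trm (fun n => c₀ * lam ^ n) ε
      (fun n => pair V (pk (A n) (m n))) (fun n => pair V (pk (B n) (m n)))
      (fun n => pair W (pk (A n) (m n))) (fun n => pair W (pk (B n) (m n)))
      (fun n => pair Z (pk (A n) (m n))) (fun n => pair Z (pk (B n) (m n)))) ∧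
    |bT lam ε c₀ (fun n => pk (A n) (m n)) (fun n => pk (B n) (m n)) V W Z| ≤
      6 * (δ * A1 s V) * (l2 W * l2 Z) := by
  obtain ⟨W1, W2, W3⟩ := bes' h hW
  obtain ⟨Z1, Z2, Z3⟩ := bes' h hZ
  have gA := gg_A h
  have gB := gg_B h
  rw [bT_eq]
  refine six (mul_nonneg hδ (A1_nonneg s V)) _ W1 W2 W2 W3 W1 W2 Z2 Z1 Z3 Z2 Z2 Z1 fun n => ?_
  exact trm_bd1 hε hε1 (gA.c0 n) (coefb' gA hδ h0 hs.le hs1.le hV n)
    (coefb' gB hδ h0 hs.le hs1.le hV n)

theorem bT_low (h : Geo s₀ N₁ δ c₀ lam N m A B) (hδ : 0 ≤ δ) (hε : 0 ≤ ε) (hε1 : ε ≤ 1)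
    (h0 : 0 < s₀) (hs1 : s₀ < 1) (hV : Rap V) (hW : Rap W) (hZ : Rap Z) :
    |bT lam ε c₀ (fun n => pk (A n) (m n)) (fun n => pk (B n) (m n)) V W Z| ≤
      6 * (δ * A1 1 W) * (l2 V * l2 Z) := by
  obtain ⟨V1, V2, V3⟩ := bes' h hV
  obtain ⟨Z1, Z2, Z3⟩ := bes' h hZ
  have gA := gg_A h
  have gB := gg_B h
  rw [bT_eq]
  refine (six (mul_nonneg hδ (A1_nonneg 1 W)) _ V2 V2 V2 V2 V1 V1 Z2 Z1 Z3 Z2 Z2 Z1
    fun n => ?_).2
  refine trm_bd2 hε hε1 (gA.c0 n) (coefb' gA hδ h0 hs1.le le_rfl hW n)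
    (coefb' gB hδ h0 hs1.le le_rfl hW n) ?_
  refine le_trans ?_ (coefb' gA hδ h0 hs1.le le_rfl hW (n + 1))
  refine mul_le_mul_of_nonneg_right ?_ (abs_nonneg _)
  have := h.c0
  exact mul_le_mul_of_nonneg_left (pow_le_pow_right₀ h.lam1.le (Nat.le_succ n)) this.le

/-- coefficients -/
noncomputable def al (c : ℕ → ℝ) (ε : ℝ) (v v' w' : ℕ → ℝ) (n : ℕ) : ℝ :=
  -(c n * (v' n * w' n + ε * (v n * w' n)))

noncomputable def be (c : ℕ → ℝ) (ε : ℝ) (v v' w : ℕ → ℝ) (n : ℕ) : ℝ :=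
  c n * (v' n * w n - v' n * w (n + 1) + ε * (v n * w n))

noncomputable def ga (c : ℕ → ℝ) (v' w' : ℕ → ℝ) (n : ℕ) : ℝ := c n * (v' n * w' n)

theorem trm_eq (c : ℕ → ℝ) (ε : ℝ) (v v' w w' z z' : ℕ → ℝ) (n : ℕ) :
    trm c ε v v' w w' z z' n = al c ε v v' w' n * z n + be c ε v v' w n * z' n +
      ga c v' w' n * z (n + 1) := by
  unfold trm al be ga
  ring

theorem co_bd {c : ℕ → ℝ} {ε L P x : ℝ} {v v' w w' : ℕ → ℝ} {n : ℕ} (h0 : 0 ≤ ε) (h1 : ε ≤ 1)
    (hx : 0 ≤ c n) (hc : c n ≤ P * x) (hw : |w n| ≤ L) (hw' : |w' n| ≤ L) (hw1 : |w (n + 1)| ≤ L) :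
    |al c ε v v' w' n| + |be c ε v v' w n| + |ga c v' w' n| ≤
      4 * L * P * (x * |v n| + x * |v' n|) := by
  have hL : 0 ≤ L := (abs_nonneg _).trans hw
  have a1 : |al c ε v v' w' n| ≤ c n * (|v' n| * L + |v n| * L) := by
    unfold al
    rw [abs_neg, abs_mul, abs_of_nonneg hx]
    refine mul_le_mul_of_nonneg_left ?_ hx
    refine (abs_add_le _ _).trans (add_le_add ?_ ?_)
    · rw [abs_mul]; gcongr
    · rw [abs_mul, abs_mul, abs_of_nonneg h0]
      calc ε * (|v n| * |w' n|) ≤ 1 * (|v n| * L) := by gcongr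
        _ = _ := one_mul _
  have a2 : |be c ε v v' w n| ≤ c n * (|v' n| * L + |v' n| * L + |v n| * L) := by
    unfold be
    rw [abs_mul, abs_of_nonneg hx]
    refine mul_le_mul_of_nonneg_left ?_ hx
    refine (abs_add_le _ _).trans (add_le_add ((abs_sub _ _).trans (add_le_add ?_ ?_)) ?_)
    · rw [abs_mul]; gcongr
    · rw [abs_mul]; gcongr
    · rw [abs_mul, abs_mul, abs_of_nonneg h0]
      calc ε * (|v n| * |w n|) ≤ 1 * (|v n| * L) := by gcongr
        _ = _ := one_mul _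
  have a3 : |ga c v' w' n| ≤ c n * (|v' n| * L) := by
    unfold ga
    rw [abs_mul, abs_of_nonneg hx, abs_mul]
    gcongr
  have h2 : c n * (4 * L * (|v n| + |v' n|)) ≤ (P * x) * (4 * L * (|v n| + |v' n|)) := by
    gcongr
  have h3 : 0 ≤ c n * (|v n| * L) := by positivity
  nlinarith

/-- the field of the cascade -/
noncomputable def GT (α β γ : ℕ → ℝ) (m : ℕ → ℕ) (A B : ℕ → Finset Z3) : Fam := fun k =>
  ∑' n, (α n • pk (A n) (m n) k + β n • pk (B n) (m n) k +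
    γ n • pk (A (n + 1)) (m (n + 1)) k)

variable {c : ℕ → ℝ} {α β γ : ℕ → ℝ}

theorem pkw (hg : GG s₀ N₁ δ c N m A) (M : ℕ) (n : ℕ) (k : Z3) :
    ‖vec k‖ ^ M * ‖pk (A n) (m n) k‖ ≤ 2 ^ M * N n ^ M := by
  have hN := hg.N1 n
  by_cases hk : k ∈ SS (A n)
  · have h1 := (hg.size n k hk).2
    have h2 := pk_norm1 (hg.pk n) k
    calc ‖vec k‖ ^ M * ‖pk (A n) (m n) k‖ ≤ (2 * N n) ^ M * 1 := by gcongr
      _ = _ := by rw [mul_one, mul_pow]
  · rw [pk_not hk, norm_zero, mul_zero]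
    positivity

theorem gt_bd (hA : GG s₀ N₁ δ c N m A) (hB : GG s₀ N₁ δ c N m B) (M n : ℕ) (k : Z3) :
    ‖vec k‖ ^ M * ‖α n • pk (A n) (m n) k + β n • pk (B n) (m n) k +
      γ n • pk (A (n + 1)) (m (n + 1)) k‖ ≤
      2 ^ M * (|α n| * N n ^ M + |β n| * N n ^ M + |γ n| * N (n + 1) ^ M) := by
  have h1 := pkw hA M n k
  have h2 := pkw hB M n k
  have h3 := pkw hA M (n + 1) k
  calc _ ≤ ‖vec k‖ ^ M * (‖α n • pk (A n) (m n) k‖ + ‖β n • pk (B n) (m n) k‖ +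
        ‖γ n • pk (A (n + 1)) (m (n + 1)) k‖) := by
        gcongr
        exact (norm_add_le _ _).trans (add_le_add (norm_add_le _ _) le_rfl)
    _ = |α n| * (‖vec k‖ ^ M * ‖pk (A n) (m n) k‖) + |β n| * (‖vec k‖ ^ M * ‖pk (B n) (m n) k‖) +
        |γ n| * (‖vec k‖ ^ M * ‖pk (A (n + 1)) (m (n + 1)) k‖) := by
        rw [norm_smul, norm_smul, norm_smul, Real.norm_eq_abs, Real.norm_eq_abs,
          Real.norm_eq_abs]
        ring
    _ ≤ |α n| * (2 ^ M * N n ^ M) + |β n| * (2 ^ M * N n ^ M) +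
        |γ n| * (2 ^ M * N (n + 1) ^ M) := by gcongr
    _ = _ := by ring

theorem gt_sum0 (hA : GG s₀ N₁ δ c N m A) (hB : GG s₀ N₁ δ c N m B)
    (hs : ∀ M : ℕ, Summable (fun n => |α n| * N n ^ M + |β n| * N n ^ M + |γ n| * N (n + 1) ^ M))
    (k : Z3) : Summable (fun n => α n • pk (A n) (m n) k + β n • pk (B n) (m n) k +
      γ n • pk (A (n + 1)) (m (n + 1)) k) := by
  refine Summable.of_norm_bounded (hs 0) fun n => ?_
  have := gt_bd (α := α) (β := β) (γ := γ) hA hB 0 n k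
  simpa using this

theorem gt_rap (hA : GG s₀ N₁ δ c N m A) (hB : GG s₀ N₁ δ c N m B)
    (hs : ∀ M : ℕ, Summable (fun n => |α n| * N n ^ M + |β n| * N n ^ M +
      |γ n| * N (n + 1) ^ M)) : Rap (GT α β γ m A B) := by
  intro M
  refine ⟨∑' n, 2 ^ M * (|α n| * N n ^ M + |β n| * N n ^ M + |γ n| * N (n + 1) ^ M),
    fun k => ?_⟩
  have s0 := (gt_sum0 hA hB hs k).norm
  have s1 := s0.mul_left (‖vec k‖ ^ M)
  calc ‖vec k‖ ^ M * ‖GT α β γ m A B k‖ ≤ ‖vec k‖ ^ M * ∑' n,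
        ‖α n • pk (A n) (m n) k + β n • pk (B n) (m n) k +
          γ n • pk (A (n + 1)) (m (n + 1)) k‖ := by
        refine mul_le_mul_of_nonneg_left ?_ (by positivity)
        exact norm_tsum_le_tsum_norm s0
    _ = ∑' n, ‖vec k‖ ^ M * ‖α n • pk (A n) (m n) k + β n • pk (B n) (m n) k +
          γ n • pk (A (n + 1)) (m (n + 1)) k‖ := by rw [tsum_mul_left]
    _ ≤ _ := s1.tsum_le_tsum (fun n => gt_bd hA hB M n k) ((hs M).mul_left _)

theorem gt_ot (hN : NC s₀ N₁) (hA : GG s₀ N₁ δ c N m A) (hB : GG s₀ N₁ δ c N m B)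
    (hs : ∀ M : ℕ, Summable (fun n => |α n| * N n ^ M + |β n| * N n ^ M +
      |γ n| * N (n + 1) ^ M)) : OT (GT α β γ m A B) := by
  refine ⟨fun k => ?_, fun k => ?_⟩
  · unfold GT
    rw [← tsum_neg]
    refine tsum_congr fun n => ?_
    rw [pk_odd (hA.pk n), pk_odd (hB.pk n), pk_odd (hA.pk (n + 1)), smul_neg, smul_neg, smul_neg]
    abel
  · unfold GT
    have e := (innerSL ℝ (vec k)).map_tsum (gt_sum0 hA hB hs k)
    rw [innerSL_apply_apply] at e
    rw [e]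
    refine (tsum_congr fun n => ?_).trans tsum_zero
    rw [innerSL_apply_apply, inner_add_right, inner_add_right, real_inner_smul_right,
      real_inner_smul_right, real_inner_smul_right, pk_tan hN (hA.pk n), pk_tan hN (hB.pk n),
      pk_tan hN (hA.pk (n + 1))]
    ring

theorem gt_pair (hA : GG s₀ N₁ δ c N m A) (hB : GG s₀ N₁ δ c N m B)
    (hs : ∀ M : ℕ, Summable (fun n => |α n| * N n ^ M + |β n| * N n ^ M +
      |γ n| * N (n + 1) ^ M)) (hZ : Rap Z) :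
    pair (GT α β γ m A B) Z = ∑' n, (α n * pair Z (pk (A n) (m n)) +
      β n * pair Z (pk (B n) (m n)) + γ n * pair Z (pk (A (n + 1)) (m (n + 1)))) := by
  have e1 : ∀ k, (inner ℝ (GT α β γ m A B k) (Z k) : ℝ) = ∑' n,
      (inner ℝ (α n • pk (A n) (m n) k + β n • pk (B n) (m n) k +
        γ n • pk (A (n + 1)) (m (n + 1)) k) (Z k) : ℝ) := by
    intro k
    have e := (innerSL ℝ (Z k)).map_tsum (gt_sum0 hA hB hs k)
    rw [innerSL_apply_apply] at e
    unfold GT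
    rw [real_inner_comm, e]
    refine tsum_congr fun n => ?_
    rw [innerSL_apply_apply, real_inner_comm]
  unfold pair
  rw [tsum_congr e1]
  have s0 := hs 0
  have s2 : Summable (fun q : Z3 × ℕ => ‖Z q.1‖ *
      (|α q.2| * N q.2 ^ 0 + |β q.2| * N q.2 ^ 0 + |γ q.2| * N (q.2 + 1) ^ 0)) :=
    (sum0 hZ).mul_of_nonneg s0 (fun _ => norm_nonneg _) (fun _ => by positivity)
  have s1 : Summable (Function.uncurry fun (k : Z3) (n : ℕ) =>
      (inner ℝ (α n • pk (A n) (m n) k + β n • pk (B n) (m n) k +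
        γ n • pk (A (n + 1)) (m (n + 1)) k) (Z k) : ℝ)) := by
    refine Summable.of_norm_bounded s2 fun q => ?_
    obtain ⟨k, n⟩ := q
    have h1 := gt_bd (α := α) (β := β) (γ := γ) hA hB 0 n k
    simp only [pow_zero, one_mul] at h1
    simp only [Function.uncurry_apply_pair, pow_zero]
    refine (norm_inner_le_norm _ _).trans ?_
    rw [mul_comm]
    gcongr
  rw [← s1.tsum_comm]
  refine tsum_congr fun n => ?_
  have f1 : ∀ (A : Finset Z3) (m : ℕ), Summable (fun k => (inner ℝ (pk A m k) (Z k) : ℝ)) := by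
    intro A m
    refine summable_of_ne_finset_zero (s := SS A) fun k hk => ?_
    rw [pk_not hk, inner_zero_left]
  have g1 := (f1 (A n) (m n)).mul_left (α n)
  have g2 := (f1 (B n) (m n)).mul_left (β n)
  have g3 := (f1 (A (n + 1)) (m (n + 1))).mul_left (γ n)
  have e2 : ∀ k, (inner ℝ (α n • pk (A n) (m n) k + β n • pk (B n) (m n) k +
        γ n • pk (A (n + 1)) (m (n + 1)) k) (Z k) : ℝ) =
      α n * inner ℝ (pk (A n) (m n) k) (Z k) + β n * inner ℝ (pk (B n) (m n) k) (Z k) +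
        γ n * inner ℝ (pk (A (n + 1)) (m (n + 1)) k) (Z k) := fun k => by
    rw [inner_add_left, inner_add_left, real_inner_smul_left, real_inner_smul_left,
      real_inner_smul_left]
  rw [tsum_congr e2, (g1.add g2).tsum_add g3, g1.tsum_add g2, tsum_mul_left, tsum_mul_left,
    tsum_mul_left]
  simp only [real_inner_comm]

theorem bT_range (hN : NC s₀ N₁) (h : Geo s₀ N₁ δ c₀ lam N m A B) (hδ : 0 ≤ δ) (hε : 0 ≤ ε)
    (hε1 : ε ≤ 1) (hs1 : s₀ < 1) (hV : Rap V) (hW : Rap W) :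
    ∃ G, OT G ∧ Rap G ∧ ∀ Z, OT Z → Rap Z →
      bT lam ε c₀ (fun n => pk (A n) (m n)) (fun n => pk (B n) (m n)) V W Z = pair G Z := by
  have gA := gg_A h
  have gB := gg_B h
  obtain ⟨v, hv⟩ : ∃ v : ℕ → ℝ, v = fun n => pair V (pk (A n) (m n)) := ⟨_, rfl⟩
  obtain ⟨v', hv'⟩ : ∃ v : ℕ → ℝ, v = fun n => pair V (pk (B n) (m n)) := ⟨_, rfl⟩
  obtain ⟨w, hw⟩ : ∃ v : ℕ → ℝ, v = fun n => pair W (pk (A n) (m n)) := ⟨_, rfl⟩
  obtain ⟨w', hw'⟩ : ∃ v : ℕ → ℝ, v = fun n => pair W (pk (B n) (m n)) := ⟨_, rfl⟩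
  obtain ⟨c, hc⟩ : ∃ c : ℕ → ℝ, c = fun n => c₀ * lam ^ n := ⟨_, rfl⟩
  obtain ⟨X, hX⟩ := h.grow
  have hlam : 0 < lam := by linarith [h.lam1]
  -- growth
  have hg : ∃ Q, 0 ≤ Q ∧ ∀ n, N (n + 1) ≤ Q * N n ^ 4 := by
    refine ⟨|X| * lam / c₀ * (125 * δ), by have := h.c0; positivity, fun n => ?_⟩
    have e1 := c_poly gA hδ hs1 n
    have e2 := h.c0
    calc N (n + 1) ≤ X * lam ^ (n + 1) := hX (n + 1)
      _ ≤ |X| * lam ^ (n + 1) := by gcongr; exact le_abs_self X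
      _ = |X| * lam / c₀ * (c₀ * lam ^ n) := by field_simp; ring
      _ ≤ |X| * lam / c₀ * (125 * δ * N n ^ 4) := by gcongr
      _ = _ := by ring
  obtain ⟨Q, hQ, hQ'⟩ := hg
  have key : ∀ M : ℕ, Summable (fun n => |al c ε v v' w' n| * N n ^ M +
      |be c ε v v' w n| * N n ^ M + |ga c v' w' n| * N (n + 1) ^ M) := by
    intro M
    have sA := (wsum gA hV (4 * M + 4))
    have sB := (wsum gB hV (4 * M + 4))
    have s := (sA.add sB).mul_left (4 * l2 W * (125 * δ) * (1 + Q ^ M))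
    refine Summable.of_nonneg_of_le (fun n => ?_) (fun n => ?_) s
    · have := gA.N1 n
      have := gA.N1 (n + 1)
      positivity
    · have n1 := gA.N1 n
      have n2 := gA.N1 (n + 1)
      have hcn : 0 ≤ c n := by rw [hc]; exact gA.c0 n
      have hb := co_bd (v := v) (v' := v') (w := w) (w' := w') (n := n) (c := c) hε hε1 hcn
        (P := 125 * δ) (x := N n ^ 4) (L := l2 W) (by rw [hc]; exact c_poly gA hδ hs1 n)
        (by rw [hw]; exact pair_le_l2 (gA.pk n) hW) (by rw [hw']; exact pair_le_l2 (gB.pk n) hW)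
        (by rw [hw]; exact pair_le_l2 (gA.pk (n + 1)) hW)
      have e1 : N n ^ M ≤ (1 + Q ^ M) * N n ^ (4 * M) := by
        calc N n ^ M ≤ 1 * N n ^ (4 * M) := by
              rw [one_mul]
              exact pow_le_pow_right₀ n1 (by omega)
          _ ≤ _ := by
              gcongr
              have : 0 ≤ Q ^ M := by positivity
              linarith
      have e2 : N (n + 1) ^ M ≤ (1 + Q ^ M) * N n ^ (4 * M) := by
        calc N (n + 1) ^ M ≤ (Q * N n ^ 4) ^ M := by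
              gcongr
              exact hQ' n
          _ = Q ^ M * N n ^ (4 * M) := by rw [mul_pow, ← pow_mul]
          _ ≤ _ := by
              gcongr
              linarith
      have hl := l2_nonneg W
      calc |al c ε v v' w' n| * N n ^ M + |be c ε v v' w n| * N n ^ M +
            |ga c v' w' n| * N (n + 1) ^ M
          ≤ |al c ε v v' w' n| * ((1 + Q ^ M) * N n ^ (4 * M)) +
            |be c ε v v' w n| * ((1 + Q ^ M) * N n ^ (4 * M)) +
            |ga c v' w' n| * ((1 + Q ^ M) * N n ^ (4 * M)) := by gcongr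
        _ = (|al c ε v v' w' n| + |be c ε v v' w n| + |ga c v' w' n|) *
            ((1 + Q ^ M) * N n ^ (4 * M)) := by ring
        _ ≤ (4 * l2 W * (125 * δ) * (N n ^ 4 * |v n| + N n ^ 4 * |v' n|)) *
            ((1 + Q ^ M) * N n ^ (4 * M)) := by gcongr
        _ = _ := by
            rw [hv, hv']
            ring
  refine ⟨GT (al c ε v v' w') (be c ε v v' w) (ga c v' w') m A B, gt_ot hN gA gB key,
    gt_rap gA gB key, fun Z hZ hZr => ?_⟩
  rw [gt_pair gA gB key hZr, bT_eq]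
  refine tsum_congr fun n => ?_
  rw [trm_eq, hv, hv', hw, hw', hc]

theorem ex_N0 (h1 : s₀ < 1) (hs : s₀ < s) {η : ℝ} (hη : 0 < η) :
    ∃ N₀ : ℝ, ∀ N₁ : ℝ, N₀ ≤ N₁ → NC s₀ N₁ ∧ N₁ ^ (s₀ - s) ≤ η := by
  have t1 := tendsto_rpow_neg_atTop (y := 1 - s₀) (by linarith)
  have t2 := tendsto_rpow_neg_atTop (y := s - s₀) (by linarith)
  have e1 := t1.eventually (ge_mem_nhds (show (0 : ℝ) < 1 / 2 by norm_num))
  have e2 := t2.eventually (ge_mem_nhds hη)
  obtain ⟨N₀, h⟩ := eventually_atTop.1 ((e1.and e2).and (eventually_ge_atTop (1 : ℝ)))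
  refine ⟨N₀, fun N₁ hN => ?_⟩
  obtain ⟨⟨a1, a2⟩, a3⟩ := h N₁ hN
  rw [neg_sub] at a1 a2
  exact ⟨⟨a3, a1⟩, a2⟩

theorem t_OP : S_OP := by
  intro s₀ s δ h0 hs hs1 hδ
  have h1 : s₀ < 1 := hs.trans hs1
  obtain ⟨N₀, hN₀⟩ := ex_N0 h1 hs (η := δ / 2 / (36 * Real.pi)) (by
    have := Real.pi_pos
    positivity)
  refine ⟨N₀, δ / 12, by positivity, ?_⟩
  intro N₁ lam ε c₀ N m A B hN₁ hε hε1 hG
  obtain ⟨hN, hη⟩ := hN₀ N₁ hN₁
  have gA := gg_A hG
  have gB := gg_B hG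
  have hd : 0 ≤ δ / 12 := by positivity
  refine ⟨6 * Real.pi + 6 * (δ / 12), ?_, ?_, ?_, ?_, ?_, ?_, ?_, ?_⟩
  · -- range
    intro V W hV hVr hW hWr
    obtain ⟨G, g1, g2, g3⟩ := b1_range hN hV hVr hW hWr
    obtain ⟨G', g1', g2', g3'⟩ := bT_range (V := V) (W := W) hN hG hd hε hε1 h1 hVr hWr
    refine ⟨fun k => G k + G' k, ot_add g1 g1', rap_add g2 g2', fun Z hZ hZr => ?_⟩
    rw [pair_add g2 g2' hZr, ← g3 Z hZ hZr, ← g3' Z hZ hZr]
  · -- add1
    intro V V' W Z hV hVr hV' hVr' hW hWr hZ hZr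
    have s1 := (bT_small (V := V) hG hd hε hε1 h0 hs hs1 hVr hWr hZr).1
    have s2 := (bT_small (V := V') hG hd hε hε1 h0 hs hs1 hVr' hWr hZr).1
    rw [b1_add hVr hVr' hWr hZr, bT_eq, bT_eq, bT_eq]
    have e : (∑' n, trm (fun n => c₀ * lam ^ n) ε
        (fun n => pair (fun k => V k + V' k) (pk (A n) (m n)))
        (fun n => pair (fun k => V k + V' k) (pk (B n) (m n)))
        (fun n => pair W (pk (A n) (m n))) (fun n => pair W (pk (B n) (m n)))
        (fun n => pair Z (pk (A n) (m n))) (fun n => pair Z (pk (B n) (m n))) n) = _ :=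
      (tsum_congr fun n => by
        unfold trm
        beta_reduce
        rw [pair_pk_add, pair_pk_add]
        ring).trans (s1.tsum_add s2)
    rw [e]
    ring
  · -- smul1
    intro a V W Z hV hVr hW hWr hZ hZr
    rw [b1_smul, bT_eq, bT_eq, mul_add, ← tsum_mul_left]
    congr 1
    refine tsum_congr fun n => ?_
    unfold trm
    beta_reduce
    rw [pair_pk_smul, pair_pk_smul]
    ring
  · -- skew
    intro V W Z hV hVr hW hWr hZ hZr
    rw [b1_skew hN hV, bT_eq, bT_eq, neg_add, ← tsum_neg]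
    congr 1
    refine tsum_congr fun n => ?_
    unfold trm
    beta_reduce
    ring
  · -- small
    intro V W Z hV hVr hW hWr hZ hZr
    have e1 := b1_small hN h0 h1 hs hs1 hVr hWr hZr
    have e2 := (bT_small (V := V) hG hd hε hε1 h0 hs hs1 hVr hWr hZr).2
    have hp := Real.pi_pos
    have hl1 := l2_nonneg W
    have hl2 := l2_nonneg Z
    have hl3 := h1_nonneg W
    have hl4 := A1_nonneg s V
    have hl5 := A1_nonneg (s - 1) V
    have e3 : 36 * Real.pi * N₁ ^ (s₀ - s) ≤ δ / 2 := by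
      rw [le_div_iff₀ (by positivity)] at hη
      linarith
    refine (abs_add_le _ _).trans ((add_le_add e1 e2).trans ?_)
    calc 36 * Real.pi * N₁ ^ (s₀ - s) *
          ((A1 s V * l2 W + A1 (s - 1) V * Pool.Agent.K1H54.LO.h1 W) * l2 Z) +
          6 * (δ / 12 * A1 s V) * (l2 W * l2 Z)
        ≤ δ / 2 * ((A1 s V * l2 W + A1 (s - 1) V * Pool.Agent.K1H54.LO.h1 W) * l2 Z) +
          6 * (δ / 12 * A1 s V) * (l2 W * l2 Z) := by gcongr
      _ ≤ _ := by
        have : 0 ≤ δ * (A1 (s - 1) V * Pool.Agent.K1H54.LO.h1 W * l2 Z) := by positivity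
        nlinarith
  · -- low
    intro V W Z hV hVr hW hWr hZ hZr
    have e1 := b1_low hN hVr hWr hZr
    have e2 := bT_low (V := V) hG hd hε hε1 h0 h1 hVr hWr hZr
    refine (abs_add_le _ _).trans ((add_le_add e1 e2).trans (le_of_eq ?_))
    ring
  · -- thin1
    intro V W Z hV hVr hW hWr hZ hZr h
    rw [b1_thin1 h, bT_eq, zero_add]
    refine (tsum_congr fun n => ?_).trans tsum_zero
    unfold trm
    beta_reduce
    rw [pair_pk_thin (gA.pk n) h, pair_pk_thin (gB.pk n) h]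
    ring
  · -- thin2
    intro V W Z hV hVr hW hWr hZ hZr h h'
    rw [b1_thin2 h h', bT_eq, zero_add]
    refine (tsum_congr fun n => ?_).trans tsum_zero
    unfold trm
    beta_reduce
    rw [pair_pk_thin (gA.pk n) h, pair_pk_thin (gB.pk n) h, pair_pk_thin (gA.pk n) h',
      pair_pk_thin (gB.pk n) h', pair_pk_thin (gA.pk (n + 1)) h]
    ring

end Pool.Agent.K1H30.OP
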