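import Pool.Agent.K1H30.OP.Rng

/-! The packets. -/

open Set Filter Topology MeasureTheory

set_option autoImplicit false

namespace Pool.Agent.K1H30.OP

open Pool.Agent.Y5 Pool.Agent.Y5.D Pool.Agent.Y5.E Pool.Agent.K1H54.LO
open Pool.Agent.Y248.ND (bil_anti vec_neg vec_sub vec_add abs_le_vec one_le_vec)
open Pool.Agent.Y301.G (wt wt_sum wt_le bil_term_sum)

/-- the frequencies of the packet -/
def SS (A : Finset Z3) : Finset Z3 := A ∪ A.image (fun k => -k)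

theorem mem_SS {A : Finset Z3} {k : Z3} : k ∈ SS A ↔ k ∈ A ∨ -k ∈ A := by
  unfold SS
  rw [Finset.mem_union, Finset.mem_image]
  refine or_congr Iff.rfl ⟨?_, fun h => ⟨-k, h, neg_neg k⟩⟩
  rintro ⟨a, ha, rfl⟩
  rwa [neg_neg]

/-- conditions on one packet -/
structure PKc (s₀ N₁ : ℝ) (A : Finset Z3) (m : ℕ) : Prop where
  thin : ∀ k ∈ A, Thin s₀ N₁ k
  pos : ∀ k ∈ A, 0 < k 0
  card : A.card = m
  mpos : 0 < m

variable {s₀ s N₁ : ℝ} {A : Finset Z3} {m : ℕ}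

theorem not_both (h : PKc s₀ N₁ A m) {k : Z3} (h1 : k ∈ A) (h2 : -k ∈ A) : False := by
  have e1 := h.pos k h1
  have e2 := h.pos (-k) h2
  simp only [Pi.neg_apply] at e2
  omega

theorem pk_mem {k : Z3} (h1 : k ∈ A) : pk A m k = ((√(2 * m : ℝ))⁻¹ * ‖pe k‖⁻¹) • pe k := by
  unfold pk
  rw [if_pos h1]

theorem pk_mem' (h : PKc s₀ N₁ A m) {k : Z3} (h1 : -k ∈ A) :
    pk A m k = -(((√(2 * m : ℝ))⁻¹ * ‖pe k‖⁻¹) • pe k) := by
  unfold pk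
  rw [if_neg fun h2 => not_both h h2 h1, if_pos h1]

theorem pk_not {k : Z3} (h1 : k ∉ SS A) : pk A m k = 0 := by
  rw [mem_SS, not_or] at h1
  unfold pk
  rw [if_neg h1.1, if_neg h1.2]

theorem pk_norm (k : Z3) : ‖pk A m k‖ ≤ (√(2 * m : ℝ))⁻¹ := by
  have h1 : ‖((√(2 * m : ℝ))⁻¹ * ‖pe k‖⁻¹) • pe k‖ ≤ (√(2 * m : ℝ))⁻¹ := by
    rw [norm_smul, norm_mul, norm_inv, norm_inv, norm_norm, mul_assoc, Real.norm_eq_abs,
      abs_of_nonneg (Real.sqrt_nonneg _)]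
    have : ‖pe k‖⁻¹ * ‖pe k‖ ≤ 1 := inv_mul_le_one
    calc (√(2 * m : ℝ))⁻¹ * (‖pe k‖⁻¹ * ‖pe k‖) ≤ (√(2 * m : ℝ))⁻¹ * 1 := by gcongr
      _ = _ := mul_one _
  unfold pk
  split_ifs
  · exact h1
  · rw [norm_neg]; exact h1
  · rw [norm_zero]; positivity

theorem sq2m (h : PKc s₀ N₁ A m) : 1 ≤ √(2 * m : ℝ) := by
  rw [Real.one_le_sqrt]
  have : (1 : ℝ) ≤ m := by exact_mod_cast h.mpos
  linarith

theorem pk_norm1 (h : PKc s₀ N₁ A m) (k : Z3) : ‖pk A m k‖ ≤ 1 :=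
  (pk_norm k).trans (inv_le_one_of_one_le₀ (sq2m h))

theorem pk_odd (h : PKc s₀ N₁ A m) (k : Z3) : pk A m (-k) = -pk A m k := by
  by_cases h1 : k ∈ A
  · rw [pk_mem h1, pk_mem' h (k := -k) (by rwa [neg_neg]), pe_neg]
  · by_cases h2 : -k ∈ A
    · rw [pk_mem h2, pk_mem' h h2, pe_neg, neg_neg]
    · rw [pk_not (k := k) (by rw [mem_SS]; tauto), pk_not (by rw [mem_SS, neg_neg]; tauto),
        neg_zero]

theorem pk_tan (hN : NC s₀ N₁) (h : PKc s₀ N₁ A m) (k : Z3) :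
    (inner ℝ (vec k) (pk A m k) : ℝ) = 0 := by
  by_cases h1 : k ∈ SS A
  · have h2 : Thin s₀ N₁ k := by
      rcases mem_SS.1 h1 with h3 | h3
      · exact h.thin k h3
      · exact thin_neg_iff.1 (h.thin _ h3)
    have h4 : (inner ℝ (vec k) (pe k) : ℝ) = 0 := by
      rw [real_inner_comm]
      exact inner_pe_self k (by linarith [thin_pos hN h2])
    rcases mem_SS.1 h1 with h3 | h3
    · rw [pk_mem h3, real_inner_smul_right, h4, mul_zero]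
    · rw [pk_mem' h h3, inner_neg_right, real_inner_smul_right, h4, mul_zero, neg_zero]
  · rw [pk_not h1, inner_zero_right]

theorem pair_pk (V : Fam) : pair V (pk A m) = ∑ k ∈ SS A, (inner ℝ (V k) (pk A m k) : ℝ) := by
  unfold pair
  refine tsum_eq_sum fun k hk => ?_
  rw [pk_not hk, inner_zero_right]

theorem pair_pk_le (V : Fam) : |pair V (pk A m)| ≤ (√(2 * m : ℝ))⁻¹ * ∑ k ∈ SS A, ‖V k‖ := by
  rw [pair_pk, Finset.mul_sum]
  refine (Finset.abs_sum_le_sum_abs _ _).trans (Finset.sum_le_sum fun k _ => ?_)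
  refine (abs_real_inner_le_norm _ _).trans ?_
  rw [mul_comm]
  exact mul_le_mul_of_nonneg_right (pk_norm k) (norm_nonneg _)

theorem pair_pk_le1 (h : PKc s₀ N₁ A m) (V : Fam) : |pair V (pk A m)| ≤ ∑ k ∈ SS A, ‖V k‖ := by
  refine (pair_pk_le V).trans ?_
  have h0 : 0 ≤ ∑ k ∈ SS A, ‖V k‖ := Finset.sum_nonneg fun _ _ => norm_nonneg _
  calc _ ≤ 1 * ∑ k ∈ SS A, ‖V k‖ :=
        mul_le_mul_of_nonneg_right (inv_le_one_of_one_le₀ (sq2m h)) h0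
    _ = _ := one_mul _

theorem card_SS (h : PKc s₀ N₁ A m) : ((SS A).card : ℝ) ≤ 2 * m := by
  have h1 : (SS A).card ≤ A.card + A.card :=
    (Finset.card_union_le _ _).trans (add_le_add le_rfl Finset.card_image_le)
  rw [h.card] at h1
  have h2 : ((SS A).card : ℝ) ≤ m + m := by exact_mod_cast h1
  linarith

theorem pair_pk_sq (h : PKc s₀ N₁ A m) (V : Fam) :
    pair V (pk A m) ^ 2 ≤ ∑ k ∈ SS A, ‖V k‖ ^ 2 := by
  have h1 := pair_pk_le (A := A) (m := m) V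
  have h2 := sq_sum_le_card_mul_sum_sq (s := SS A) (f := fun k => ‖V k‖)
  have h3 : 0 ≤ ∑ k ∈ SS A, ‖V k‖ ^ 2 := Finset.sum_nonneg fun _ _ => sq_nonneg _
  have hm : (0 : ℝ) < m := by exact_mod_cast h.mpos
  have h4 : ((√(2 * m : ℝ))⁻¹) ^ 2 = (2 * m : ℝ)⁻¹ := by
    rw [inv_pow, Real.sq_sqrt (by positivity)]
  rw [← sq_abs]
  calc |pair V (pk A m)| ^ 2 ≤ ((√(2 * m : ℝ))⁻¹ * ∑ k ∈ SS A, ‖V k‖) ^ 2 := by gcongr
    _ = (2 * m : ℝ)⁻¹ * (∑ k ∈ SS A, ‖V k‖) ^ 2 := by rw [mul_pow, h4]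
    _ ≤ (2 * m : ℝ)⁻¹ * ((SS A).card * ∑ k ∈ SS A, ‖V k‖ ^ 2) := by gcongr
    _ ≤ (2 * m : ℝ)⁻¹ * ((2 * m) * ∑ k ∈ SS A, ‖V k‖ ^ 2) := by
        gcongr
        exact card_SS h
    _ = _ := by field_simp

theorem pair_pk_add (V V' : Fam) : pair (fun k => V k + V' k) (pk A m) =
    pair V (pk A m) + pair V' (pk A m) := by
  rw [pair_pk, pair_pk, pair_pk, ← Finset.sum_add_distrib]
  exact Finset.sum_congr rfl fun k _ => inner_add_left _ _ _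

theorem pair_pk_smul (a : ℝ) (V : Fam) : pair (fun k => a • V k) (pk A m) =
    a * pair V (pk A m) := by
  rw [pair_pk, pair_pk, Finset.mul_sum]
  exact Finset.sum_congr rfl fun k _ => real_inner_smul_left _ _ _

theorem pair_pk_thin (h : PKc s₀ N₁ A m) {V : Fam} (hV : ∀ k, Thin s₀ N₁ k → V k = 0) :
    pair V (pk A m) = 0 := by
  rw [pair_pk]
  refine Finset.sum_eq_zero fun k hk => ?_
  have h2 : Thin s₀ N₁ k := by
    rcases mem_SS.1 hk with h3 | h3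
    · exact h.thin k h3
    · exact thin_neg_iff.1 (h.thin _ h3)
  rw [hV k h2, inner_zero_left]

/-! ### Sums over disjoint sets -/

theorem dsum {S : ℕ → Finset Z3} (hd : ∀ n n', n ≠ n' → Disjoint (S n) (S n')) {f : Z3 → ℝ}
    (hf : ∀ k, 0 ≤ f k) (sf : Summable f) :
    Summable (fun n => ∑ k ∈ S n, f k) ∧ ∑' n, ∑ k ∈ S n, f k ≤ ∑' k, f k := by
  have h1 : ∀ u : Finset ℕ, ∑ n ∈ u, ∑ k ∈ S n, f k ≤ ∑' k, f k := by
    intro u
    rw [← Finset.sum_biUnion fun n _ n' _ h => hd n n' h]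
    exact sf.sum_le_tsum _ fun k _ => hf k
  have h2 : Summable (fun n => ∑ k ∈ S n, f k) :=
    summable_of_sum_le (fun n => Finset.sum_nonneg fun k _ => hf k) h1
  exact ⟨h2, h2.tsum_le_of_sum_le h1⟩

theorem bessel {A : ℕ → Finset Z3} {m : ℕ → ℕ} (h : ∀ n, PKc s₀ N₁ (A n) (m n))
    (hd : ∀ n n', n ≠ n' → Disjoint (SS (A n)) (SS (A n'))) {W : Fam} (hW : Rap W) :
    Summable (fun n => pair W (pk (A n) (m n)) ^ 2) ∧
      √(∑' n, pair W (pk (A n) (m n)) ^ 2) ≤ l2 W := by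
  obtain ⟨s1, t1⟩ := dsum hd (f := fun k => ‖W k‖ ^ 2) (fun _ => by positivity) (sq0 hW)
  have s2 : Summable (fun n => pair W (pk (A n) (m n)) ^ 2) :=
    Summable.of_nonneg_of_le (fun _ => sq_nonneg _) (fun n => pair_pk_sq (h n) W) s1
  refine ⟨s2, Real.sqrt_le_sqrt ?_⟩
  exact (s2.tsum_le_tsum (fun n => pair_pk_sq (h n) W) s1).trans t1

theorem pair_le_l2 (h : PKc s₀ N₁ A m) {W : Fam} (hW : Rap W) : |pair W (pk A m)| ≤ l2 W := by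
  unfold l2
  apply Real.abs_le_sqrt
  exact (pair_pk_sq h W).trans ((sq0 hW).sum_le_tsum _ fun _ _ => sq_nonneg _)

theorem card_ball {A : Finset Z3} {R : ℝ} (hR : 1 ≤ R) (h : ∀ k ∈ A, ‖vec k‖ ≤ 2 * R) :
    (A.card : ℝ) ≤ 125 * R ^ 3 := by
  have h1 : A ⊆ Fintype.piFinset (fun _ : Fin 3 => Finset.Icc (-⌊2 * R⌋) ⌊2 * R⌋) := by
    intro k hk
    rw [Fintype.mem_piFinset]
    intro i
    have h2 : |(k i : ℝ)| ≤ 2 * R := (abs_le_vec k i).trans (h k hk)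
    rw [abs_le] at h2
    rw [Finset.mem_Icc]
    have h3 : k i ≤ ⌊2 * R⌋ := Int.le_floor.2 h2.2
    have h4 : -k i ≤ ⌊2 * R⌋ := Int.le_floor.2 (by push_cast; linarith)
    exact ⟨by omega, h3⟩
  have h2 := Finset.card_le_card h1
  rw [Fintype.card_piFinset] at h2
  simp only [Finset.prod_const, Finset.card_univ, Fintype.card_fin, Int.card_Icc] at h2
  have h3 : (A.card : ℝ) ≤ (((⌊2 * R⌋ + 1 - -⌊2 * R⌋).toNat : ℕ) : ℝ) ^ 3 := by exact_mod_cast h2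
  have h4 : 0 ≤ ⌊2 * R⌋ := Int.floor_nonneg.2 (by linarith)
  have h5 : (((⌊2 * R⌋ + 1 - -⌊2 * R⌋).toNat : ℕ) : ℝ) = 2 * (⌊2 * R⌋ : ℝ) + 1 := by
    have : (((⌊2 * R⌋ + 1 - -⌊2 * R⌋).toNat : ℕ) : ℤ) = 2 * ⌊2 * R⌋ + 1 := by omega
    exact_mod_cast this
  rw [h5] at h3
  have h6 : (⌊2 * R⌋ : ℝ) ≤ 2 * R := Int.floor_le _
  have h7 : (0 : ℝ) ≤ (⌊2 * R⌋ : ℝ) := by exact_mod_cast h4
  calc (A.card : ℝ) ≤ (2 * (⌊2 * R⌋ : ℝ) + 1) ^ 3 := h3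
    _ ≤ (5 * R) ^ 3 := by
        gcongr
        linarith
    _ = _ := by ring

end Pool.Agent.K1H30.OP
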