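import Pool.Agent.K1H30.OP.Proj

/-! The trilinear form is given by a bilinear operator. -/

open Set Filter Topology MeasureTheory

set_option autoImplicit false

namespace Pool.Agent.K1H30.OP

open Pool.Agent.Y5 Pool.Agent.Y5.D Pool.Agent.Y5.E Pool.Agent.K1H54.LO
open Pool.Agent.Y248.ND (bil_anti vec_neg vec_sub vec_add abs_le_vec one_le_vec)
open Pool.Agent.Y301.G (wt wt_sum wt_le bil_term_sum)

/-- the tangential projection -/
noncomputable def tp (k : Z3) (x : E3) : E3 :=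
  x - ((inner ℝ (vec k) x : ℝ) / ‖vec k‖ ^ 2) • vec k

theorem tp_tan (k : Z3) (x : E3) : (inner ℝ (vec k) (tp k x) : ℝ) = 0 := by
  unfold tp
  rw [inner_sub_right, real_inner_smul_right, real_inner_self_eq_norm_sq]
  rcases eq_or_ne ‖vec k‖ 0 with h | h
  · rw [norm_eq_zero.1 h]
    simp
  · rw [div_mul_cancel₀ _ (pow_ne_zero 2 h), sub_self]

theorem tp_neg (k : Z3) (x : E3) : tp (-k) (-x) = -tp k x := by
  unfold tp
  rw [vec_neg, norm_neg, inner_neg_neg, smul_neg]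
  abel

theorem tp_norm (k : Z3) (x : E3) : ‖tp k x‖ ≤ 2 * ‖x‖ := by
  unfold tp
  have h1 : ‖((inner ℝ (vec k) x : ℝ) / ‖vec k‖ ^ 2) • vec k‖ ≤ ‖x‖ := by
    rw [norm_smul, norm_div, norm_pow, norm_norm]
    rcases eq_or_ne ‖vec k‖ 0 with h | h
    · rw [h]
      simp
    · have h0 : 0 < ‖vec k‖ := lt_of_le_of_ne (norm_nonneg _) (Ne.symm h)
      have h2 : ‖(inner ℝ (vec k) x : ℝ)‖ ≤ ‖vec k‖ * ‖x‖ := norm_inner_le_norm _ _
      rw [div_mul_eq_mul_div, div_le_iff₀ (by positivity)]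
      calc ‖(inner ℝ (vec k) x : ℝ)‖ * ‖vec k‖ ≤ ‖vec k‖ * ‖x‖ * ‖vec k‖ := by gcongr
        _ = _ := by ring
  exact (norm_sub_le _ _).trans (by linarith)

theorem tp_inner {k : Z3} {x z : E3} (h : inner ℝ (vec k) z = 0) :
    (inner ℝ (tp k x) z : ℝ) = inner ℝ x z := by
  unfold tp
  rw [inner_sub_left, real_inner_smul_left, h, mul_zero, sub_zero]

/-- the convolution -/
noncomputable def cv (V W : Fam) (k : Z3) : E3 :=
  (-(2 * Real.pi)) • ∑' p : Z3, (inner ℝ (V p) (vec k) : ℝ) • W (k - p)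

/-- the operator -/
noncomputable def BB (V W : Fam) : Fam := fun k => tp k (cv V W k)

variable {V W Z : Fam}

theorem cv_term (V W : Fam) (k p : Z3) : ‖(inner ℝ (V p) (vec k) : ℝ) • W (k - p)‖ ≤
    (1 + ‖vec k‖) * (‖V p‖ * ‖W (k - p)‖) := by
  rw [norm_smul]
  have h1 : ‖(inner ℝ (V p) (vec k) : ℝ)‖ ≤ ‖V p‖ * ‖vec k‖ := norm_inner_le_norm _ _
  calc _ ≤ (‖V p‖ * ‖vec k‖) * ‖W (k - p)‖ := by gcongr
    _ ≤ (‖V p‖ * (1 + ‖vec k‖)) * ‖W (k - p)‖ := by gcongr; linarith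
    _ = _ := by ring

theorem cv_sum (hV : Rap V) (hW : Rap W) (k : Z3) :
    Summable (fun p : Z3 => (inner ℝ (V p) (vec k) : ℝ) • W (k - p)) := by
  obtain ⟨M, hM, h1⟩ := bd0 hW
  refine Summable.of_norm_bounded ((sum0 hV).mul_left ((1 + ‖vec k‖) * M)) (fun p => ?_)
  refine (cv_term V W k p).trans ?_
  have := h1 (k - p)
  calc (1 + ‖vec k‖) * (‖V p‖ * ‖W (k - p)‖) ≤ (1 + ‖vec k‖) * (‖V p‖ * M) := by gcongr
    _ = _ := by ring

theorem cv_odd (hV : OT V) (hW : OT W) (k : Z3) : cv V W (-k) = -cv V W k := by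
  unfold cv
  rw [← smul_neg]
  congr 1
  rw [← (Equiv.neg Z3).tsum_eq, ← tsum_neg]
  refine tsum_congr fun p => ?_
  have e : -k - (Equiv.neg Z3) p = -(k - p) := by
    simp only [Equiv.neg_apply]
    abel
  rw [e, Equiv.neg_apply, hV.odd, hW.odd, vec_neg, inner_neg_neg, smul_neg]

theorem BB_ot (hV : OT V) (hW : OT W) : OT (BB V W) :=
  ⟨fun k => by unfold BB; rw [cv_odd hV hW, tp_neg], fun k => tp_tan k _⟩

theorem jp_split (k p : Z3) : 1 + ‖vec k‖ ≤ (1 + ‖vec p‖) * (1 + ‖vec (k - p)‖) := by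
  have h1 : ‖vec k‖ ≤ ‖vec p‖ + ‖vec (k - p)‖ := by
    have : vec k = vec p + vec (k - p) := by rw [← vec_add]; congr 1; abel
    nth_rewrite 1 [this]
    exact norm_add_le _ _
  nlinarith [norm_nonneg (vec p), norm_nonneg (vec (k - p))]

theorem BB_rap (hV : Rap V) (hW : Rap W) : Rap (BB V W) := by
  intro m
  obtain ⟨M, hM, h1⟩ := rap_bd hW (m + 1)
  have h2 := rap_sum hV (m + 1)
  refine ⟨2 * (2 * Real.pi * (M * ∑' p, (1 + ‖vec p‖) ^ (m + 1) * ‖V p‖)), fun k => ?_⟩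
  have h3 : ‖vec k‖ ^ m * ‖∑' p : Z3, (inner ℝ (V p) (vec k) : ℝ) • W (k - p)‖ ≤
      M * ∑' p, (1 + ‖vec p‖) ^ (m + 1) * ‖V p‖ := by
    have s1 := cv_sum hV hW k
    have s2 : Summable (fun p : Z3 => ‖(inner ℝ (V p) (vec k) : ℝ) • W (k - p)‖) := s1.norm
    calc ‖vec k‖ ^ m * ‖∑' p : Z3, (inner ℝ (V p) (vec k) : ℝ) • W (k - p)‖
        ≤ ‖vec k‖ ^ m * ∑' p : Z3, ‖(inner ℝ (V p) (vec k) : ℝ) • W (k - p)‖ := by
          gcongr
          exact norm_tsum_le_tsum_norm s2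
      _ = ∑' p : Z3, ‖vec k‖ ^ m * ‖(inner ℝ (V p) (vec k) : ℝ) • W (k - p)‖ := by
          rw [tsum_mul_left]
      _ ≤ ∑' p : Z3, M * ((1 + ‖vec p‖) ^ (m + 1) * ‖V p‖) := by
          refine (s2.mul_left _).tsum_le_tsum (fun p => ?_) (h2.mul_left M)
          have e1 := cv_term V W k p
          have e2 := jp_split k p
          have e3 := h1 (k - p)
          have e4 : (1 + ‖vec k‖) ^ (m + 1) ≤
              (1 + ‖vec p‖) ^ (m + 1) * (1 + ‖vec (k - p)‖) ^ (m + 1) := by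
            rw [← mul_pow]
            exact pow_le_pow_left₀ (by positivity) e2 _
          calc ‖vec k‖ ^ m * ‖(inner ℝ (V p) (vec k) : ℝ) • W (k - p)‖
              ≤ (1 + ‖vec k‖) ^ m * ((1 + ‖vec k‖) * (‖V p‖ * ‖W (k - p)‖)) := by
                gcongr
                linarith
            _ = (1 + ‖vec k‖) ^ (m + 1) * (‖V p‖ * ‖W (k - p)‖) := by ring
            _ ≤ ((1 + ‖vec p‖) ^ (m + 1) * (1 + ‖vec (k - p)‖) ^ (m + 1)) *
                (‖V p‖ * ‖W (k - p)‖) := by gcongr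
            _ = (((1 + ‖vec (k - p)‖) ^ (m + 1)) * ‖W (k - p)‖) *
                ((1 + ‖vec p‖) ^ (m + 1) * ‖V p‖) := by ring
            _ ≤ M * ((1 + ‖vec p‖) ^ (m + 1) * ‖V p‖) := by gcongr
      _ = _ := by rw [tsum_mul_left]
  have h4 : ‖cv V W k‖ = 2 * Real.pi *
      ‖∑' p : Z3, (inner ℝ (V p) (vec k) : ℝ) • W (k - p)‖ := by
    unfold cv
    rw [norm_smul, norm_neg, Real.norm_eq_abs, abs_of_pos Real.two_pi_pos]
  calc ‖vec k‖ ^ m * ‖BB V W k‖ ≤ ‖vec k‖ ^ m * (2 * ‖cv V W k‖) := by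
        gcongr
        exact tp_norm k _
    _ = 2 * (2 * Real.pi * (‖vec k‖ ^ m *
          ‖∑' p : Z3, (inner ℝ (V p) (vec k) : ℝ) • W (k - p)‖)) := by rw [h4]; ring
    _ ≤ _ := by
        have := Real.two_pi_pos
        gcongr

theorem bil_eq_pair (hV : Rap V) (hW : Rap W) (hZ : Rap Z) (hZt : OT Z) :
    bil V W Z = pair (BB V W) Z := by
  have s0 := bsum hV hW hZ
  have s1 := s0.prod_symm
  have e1 : ∑' q : Z3 × Z3, (inner ℝ (V q.1) (vec q.2) : ℝ) * inner ℝ (W (q.2 - q.1)) (Z q.2) =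
      ∑' q : Z3 × Z3, (inner ℝ (V q.2) (vec q.1) : ℝ) * inner ℝ (W (q.1 - q.2)) (Z q.1) :=
    ((Equiv.prodComm Z3 Z3).tsum_eq (fun q : Z3 × Z3 =>
      (inner ℝ (V q.1) (vec q.2) : ℝ) * inner ℝ (W (q.2 - q.1)) (Z q.2))).symm
  have s2 : Summable (fun q : Z3 × Z3 =>
      (inner ℝ (V q.2) (vec q.1) : ℝ) * inner ℝ (W (q.1 - q.2)) (Z q.1)) := s1
  unfold bil pair
  rw [e1, s2.tsum_prod, ← tsum_mul_left]
  refine tsum_congr fun k => ?_
  unfold BB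
  rw [tp_inner (hZt.tan k)]
  unfold cv
  rw [real_inner_smul_left]
  congr 1
  have e2 : (inner ℝ (∑' p : Z3, (inner ℝ (V p) (vec k) : ℝ) • W (k - p)) (Z k) : ℝ) =
      (innerSL ℝ (Z k)) (∑' p : Z3, (inner ℝ (V p) (vec k) : ℝ) • W (k - p)) := by
    rw [innerSL_apply_apply, real_inner_comm]
  rw [e2, (innerSL ℝ (Z k)).map_tsum (cv_sum hV hW k)]
  refine tsum_congr fun p => ?_
  rw [innerSL_apply_apply, real_inner_smul_right, real_inner_comm (W (k - p)) (Z k)]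

theorem psum {G Z : Fam} (hG : Rap G) (hZ : Rap Z) : Summable (fun k => (inner ℝ (G k) (Z k) : ℝ)) := by
  obtain ⟨M, hM, h1⟩ := bd0 hZ
  refine Summable.of_norm_bounded ((sum0 hG).mul_right M) (fun k => ?_)
  refine (norm_inner_le_norm _ _).trans ?_
  gcongr
  exact h1 k

theorem rap_add {G H : Fam} (hG : Rap G) (hH : Rap H) : Rap (fun k => G k + H k) := fun m => by
  obtain ⟨M, hM⟩ := hG m
  obtain ⟨M', hM'⟩ := hH m
  refine ⟨M + M', fun k => ?_⟩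
  calc ‖vec k‖ ^ m * ‖G k + H k‖ ≤ ‖vec k‖ ^ m * (‖G k‖ + ‖H k‖) := by
        gcongr
        exact norm_add_le _ _
    _ = ‖vec k‖ ^ m * ‖G k‖ + ‖vec k‖ ^ m * ‖H k‖ := by ring
    _ ≤ _ := add_le_add (hM k) (hM' k)

theorem rap_neg {G : Fam} (hG : Rap G) : Rap (fun k => -G k) := fun m => by
  obtain ⟨M, hM⟩ := hG m
  exact ⟨M, fun k => by rw [norm_neg]; exact hM k⟩

theorem ot_add {G H : Fam} (hG : OT G) (hH : OT H) : OT (fun k => G k + H k) :=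
  ⟨fun k => by rw [hG.odd, hH.odd]; abel, fun k => by rw [inner_add_right, hG.tan, hH.tan, add_zero]⟩

theorem ot_neg {G : Fam} (hG : OT G) : OT (fun k => -G k) :=
  ⟨fun k => by rw [hG.odd], fun k => by rw [inner_neg_right, hG.tan, neg_zero]⟩

theorem pair_add {G H Z : Fam} (hG : Rap G) (hH : Rap H) (hZ : Rap Z) :
    pair (fun k => G k + H k) Z = pair G Z + pair H Z := by
  unfold pair
  rw [← (psum hG hZ).tsum_add (psum hH hZ)]
  exact tsum_congr fun k => inner_add_left _ _ _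

theorem pair_neg (G Z : Fam) : pair (fun k => -G k) Z = -pair G Z := by
  unfold pair
  rw [← tsum_neg]
  exact tsum_congr fun k => inner_neg_left _ _

variable {s₀ s N : ℝ}

theorem b1_range (hN : NC s₀ N) (hV : OT V) (hVr : Rap V) (hW : OT W) (hWr : Rap W) :
    ∃ G, OT G ∧ Rap G ∧ ∀ Z, OT Z → Rap Z → b1 s₀ N V W Z = pair G Z := by
  have o1 : OT (Pj s₀ N V) := Pj_ot hN hV.odd
  have o2 : OT (Pj s₀ N W) := Pj_ot hN hW.odd
  have r1 : Rap (Pj s₀ N V) := Pj_rap hVr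
  have r2 : Rap (Pj s₀ N W) := Pj_rap hWr
  have g1 := BB_ot o1 o2
  have g1r := BB_rap r1 r2
  have g2 : OT (Pj s₀ N (BB (Pj s₀ N V) W)) := Pj_ot hN (BB_ot o1 hW).odd
  have g2r : Rap (Pj s₀ N (BB (Pj s₀ N V) W)) := Pj_rap (BB_rap r1 hWr)
  have g3 : OT (Pj s₀ N (BB (Pj s₀ N V) (Pj s₀ N W))) := Pj_ot hN g1.odd
  have g3r : Rap (Pj s₀ N (BB (Pj s₀ N V) (Pj s₀ N W))) := Pj_rap g1r
  refine ⟨fun k => -((fun k => BB (Pj s₀ N V) (Pj s₀ N W) k + Pj s₀ N (BB (Pj s₀ N V) W) k) k +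
    (fun k => -Pj s₀ N (BB (Pj s₀ N V) (Pj s₀ N W)) k) k),
    ot_neg (ot_add (ot_add g1 g2) (ot_neg g3)), rap_neg (rap_add (rap_add g1r g2r) (rap_neg g3r)),
    fun Z hZ hZr => ?_⟩
  rw [pair_neg, pair_add (rap_add g1r g2r) (rap_neg g3r) hZr, pair_add g1r g2r hZr, pair_neg]
  unfold b1
  have z1 : OT (Pj s₀ N Z) := Pj_ot hN hZ.odd
  have z2 : Rap (Pj s₀ N Z) := Pj_rap hZr
  rw [bil_eq_pair r1 r2 hZr hZ, bil_eq_pair r1 hWr z2 z1, bil_eq_pair r1 r2 z2 z1]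
  have e : ∀ G : Fam, pair G (Pj s₀ N Z) = pair (Pj s₀ N G) Z := fun G =>
    tsum_congr fun k => Pj_adj G Z k
  rw [e, e]
  ring

theorem b1_skew (hN : NC s₀ N) (hV : OT V) : b1 s₀ N V W Z = -b1 s₀ N V Z W := by
  have o1 : OT (Pj s₀ N V) := Pj_ot hN hV.odd
  unfold b1
  rw [bil_anti (Pj s₀ N V) (Pj s₀ N W) Z o1, bil_anti (Pj s₀ N V) W (Pj s₀ N Z) o1,
    bil_anti (Pj s₀ N V) (Pj s₀ N W) (Pj s₀ N Z) o1]
  ring

theorem b1_add (hV : Rap V) {V' : Fam} (hV' : Rap V') (hW : Rap W) (hZ : Rap Z) :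
    b1 s₀ N (fun k => V k + V' k) W Z = b1 s₀ N V W Z + b1 s₀ N V' W Z := by
  unfold b1
  rw [Pj_add, bil_add1 (Pj_rap hV) (Pj_rap hV') (Pj_rap hW) hZ,
    bil_add1 (Pj_rap hV) (Pj_rap hV') hW (Pj_rap hZ),
    bil_add1 (Pj_rap hV) (Pj_rap hV') (Pj_rap hW) (Pj_rap hZ)]
  ring

theorem b1_smul (a : ℝ) (V W Z : Fam) :
    b1 s₀ N (fun k => a • V k) W Z = a * b1 s₀ N V W Z := by
  unfold b1
  rw [Pj_smul, bil_smul1, bil_smul1, bil_smul1]
  ring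

theorem bil_z1 (W Z : Fam) : bil (fun _ => 0) W Z = 0 := by
  unfold bil
  simp

theorem bil_z2 (V Z : Fam) : bil V (fun _ => 0) Z = 0 := by
  unfold bil
  simp

theorem bil_z3 (V W : Fam) : bil V W (fun _ => 0) = 0 := by
  unfold bil
  simp

theorem b1_thin1 (h : ∀ k, Thin s₀ N k → V k = 0) : b1 s₀ N V W Z = 0 := by
  unfold b1
  rw [Pj_zero h, bil_z1, bil_z1, bil_z1]
  ring

theorem b1_thin2 (h : ∀ k, Thin s₀ N k → W k = 0) (h' : ∀ k, Thin s₀ N k → Z k = 0) :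
    b1 s₀ N V W Z = 0 := by
  unfold b1
  rw [Pj_zero h, Pj_zero h', bil_z2, bil_z3, bil_z3]
  ring

theorem b1_small (hN : NC s₀ N) (h0 : 0 < s₀) (h1 : s₀ < 1) (hs : s₀ < s) (hs1 : s < 1)
    (hV : Rap V) (hW : Rap W) (hZ : Rap Z) :
    |b1 s₀ N V W Z| ≤ 36 * Real.pi * N ^ (s₀ - s) *
      ((A1 s V * l2 W + A1 (s - 1) V * Pool.Agent.K1H54.LO.h1 W) * l2 Z) := by
  unfold b1
  have e1 := bil_small hN h0 h1 hs hs1 hV hW hZ (Pj_rap (s₀ := s₀) (N := N) hW) hZ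
    (Pj_norm W) (fun _ => le_rfl) (Or.inl fun k hk => Pj_not hk)
  have e2 := bil_small hN h0 h1 hs hs1 hV hW hZ hW (Pj_rap (s₀ := s₀) (N := N) hZ)
    (fun _ => le_rfl) (Pj_norm Z) (Or.inr fun k hk => Pj_not hk)
  have e3 := bil_small hN h0 h1 hs hs1 hV hW hZ (Pj_rap (s₀ := s₀) (N := N) hW)
    (Pj_rap (s₀ := s₀) (N := N) hZ)
    (Pj_norm W) (Pj_norm Z) (Or.inr fun k hk => Pj_not hk)
  rw [abs_neg]
  refine (abs_sub _ _).trans ((add_le_add (abs_add_le _ _) le_rfl).trans ?_)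
  refine (add_le_add (add_le_add e1 e2) e3).trans (le_of_eq ?_)
  ring

theorem b1_low (hN : NC s₀ N) (hV : Rap V) (hW : Rap W) (hZ : Rap Z) :
    |b1 s₀ N V W Z| ≤ 6 * Real.pi * (l2 V * A1 1 W * l2 Z) := by
  unfold b1
  have e1 := bil_low hV hW hZ (Pj_rap (s₀ := s₀) (N := N) hV) (Pj_rap (s₀ := s₀) (N := N) hW) hZ
    (Pj_norm V) (Pj_norm W) (fun _ => le_rfl) (Pj_tan hN V)
  have e2 := bil_low hV hW hZ (Pj_rap (s₀ := s₀) (N := N) hV) hW (Pj_rap (s₀ := s₀) (N := N) hZ)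
    (Pj_norm V) (fun _ => le_rfl) (Pj_norm Z) (Pj_tan hN V)
  have e3 := bil_low hV hW hZ (Pj_rap (s₀ := s₀) (N := N) hV) (Pj_rap (s₀ := s₀) (N := N) hW)
    (Pj_rap (s₀ := s₀) (N := N) hZ) (Pj_norm V) (Pj_norm W) (Pj_norm Z) (Pj_tan hN V)
  rw [abs_neg]
  refine (abs_sub _ _).trans ((add_le_add (abs_add_le _ _) le_rfl).trans ?_)
  refine (add_le_add (add_le_add e1 e2) e3).trans (le_of_eq ?_)
  ring

end Pool.Agent.K1H30.OP
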